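import Pool.Agent.Work.MP_d266e7_co.P24.Trace

/-!
`vb_base`: `gallai`, `deg_count` (`5 m + b1 ≤ 2 n`), `2 tt ≤ b1`, `tt ≤ m`, `5 ≤ n`; the only case
left is `m = 3`, `n = 8`, which is `h8_trace`: with members `x, y, z` and degrees at most two the
three intersections have sizes with sum seven and pairwise sums at most five, so one pair has
three common vertices and all its other vertices lie in the third member (`hi_pos`).
Compare `C5.gb_base`.
-/

namespace Pool.Agent.Work.MP_d266e7_co.C5.P24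

open Finset

variable {V : Type} [DecidableEq V]

theorem base_half {x y z : Finset V} (hx : x.card = 5) (ht : ∀ v ∈ x, v ∈ y → v ∉ z)
    (h3 : (x ∩ y).card = 3) (h2 : (x ∩ z).card = 2) {v : V} (hv : v ∈ x) (hv' : v ∉ y) :
    v ∈ z := by
  have h1 : x ∩ z ⊆ x \ y := fun w hw =>
    mem_sdiff.2 ⟨(mem_inter.1 hw).1, fun h => ht w (mem_inter.1 hw).1 h (mem_inter.1 hw).2⟩
  have h4 := card_sdiff_add_card_inter x y
  have h5 : x ∩ z = x \ y := eq_of_subset_of_card_le h1 (by omega)
  have h6 : v ∈ x ∩ z := h5 ▸ mem_sdiff.2 ⟨hv, hv'⟩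
  exact (mem_inter.1 h6).2

theorem base_key {x y z : Finset V} (hx : x.card = 5) (hy : y.card = 5)
    (ht : ∀ v ∈ x, v ∈ y → v ∉ z) (h3 : (x ∩ y).card = 3) (h2 : (x ∩ z).card = 2)
    (h2' : (y ∩ z).card = 2) : sd x y ⊆ z := by
  intro v hv
  rcases mem_sd.1 hv with ⟨a, b⟩ | ⟨a, b⟩
  · exact base_half hx ht h3 h2 a b
  · exact base_half hy (fun w h1 h4 => ht w h4 h1) (by rw [inter_comm]; exact h3) h2' b a

theorem base_two {x y z : Finset V} (ht : ∀ v ∈ x, v ∈ y → v ∉ z) :
    (x ∩ y).card + (x ∩ z).card ≤ x.card := by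
  rw [← card_union_of_disjoint (disjoint_left.2 fun v h1 h2 =>
    ht v (mem_inter.1 h1).1 (mem_inter.1 h1).2 (mem_inter.1 h2).2)]
  exact card_le_card (union_subset inter_subset_left inter_subset_left)

theorem h8_trace {H : Finset (Finset V)} (h5 : U5 H) (h2 : ∀ v, dg H v ≤ 2) (hm : H.card = 3)
    (hn : (cov H).card = 8) : 1 ≤ hi H H := by
  obtain ⟨x, y, z, hxy, hxz, hyz, hH⟩ := card_eq_three.1 hm
  have mx : x ∈ H := by rw [hH]; simp
  have my : y ∈ H := by rw [hH]; simp
  have mz : z ∈ H := by rw [hH]; simp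
  have ht : ∀ v ∈ x, v ∈ y → v ∉ z := fun v a b c => by
    have h1 : H ⊆ star H v := fun e he => mem_star.2 ⟨he, by
      rw [hH] at he
      simp only [mem_insert, mem_singleton] at he
      rcases he with rfl | rfl | rfl <;> assumption⟩
    have h3 := card_le_card h1
    have h4 : (star H v).card ≤ 2 := h2 v
    omega
  have hc : cov H = (x ∪ y) ∪ z := by
    ext v
    rw [mem_cov, hH]
    simp
  have cx := h5 x mx
  have cy := h5 y my
  have cz := h5 z mz
  have e1 := card_union_add_card_inter x y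
  have e2 := card_union_add_card_inter (x ∪ y) z
  have e3 : ((x ∪ y) ∩ z).card = (x ∩ z).card + (y ∩ z).card := by
    rw [union_inter_distrib_right, card_union_of_disjoint (disjoint_left.2 fun v h1 h3 =>
      ht v (mem_inter.1 h1).1 (mem_inter.1 h3).1 (mem_inter.1 h3).2)]
  rw [← hc, hn, e3] at e2
  have hty : ∀ v ∈ y, v ∈ z → v ∉ x := fun v a b c => ht v c a b
  have htz : ∀ v ∈ x, v ∈ z → v ∉ y := fun v a b c => ht v a c b
  have b1 := base_two ht
  have b2 := base_two hty
  have b3 := base_two (x := z) (y := x) (z := y) fun v a b c => ht v b c a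
  rw [inter_comm y x] at b2
  rw [inter_comm z x, inter_comm z y] at b3
  by_cases k1 : (x ∩ y).card = 3
  · exact hi_pos mx my hxy k1 mz (base_key cx cy ht k1 (by omega) (by omega))
  by_cases k2 : (x ∩ z).card = 3
  · exact hi_pos mx mz hxz k2 my
      (base_key cx cz htz k2 (by omega) (by rw [inter_comm]; omega))
  · have k3 : (y ∩ z).card = 3 := by omega
    exact hi_pos my mz hyz k3 mx
      (base_key cy cz hty k3 (by rw [inter_comm]; omega) (by rw [inter_comm]; omega))

theorem vb_base {H : Finset (Finset V)} (h : CC H) (h2 : ∀ v, dg H v ≤ 2) :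
    VB H 5 ∧ (2 * tau H ≤ H.card → VB H 2) := by
  have h1 := gallai h.u5.ne h.crit h.conn
  have h3 := deg_count h.u5 1 ((cov H).filter (fun v => dg H v ≤ 1)) (fun v _ => h2 v)
    (fun v _ hv => (mem_filter.1 hv).2)
  rw [inter_eq_right.2 (filter_subset _ _)] at h3
  have h4 := (gplus_empty H).tt_out
  have e1 : un (∅ : Finset (Finset (Finset V))) = ∅ := rfl
  have e2 : cov (∅ : Finset (Finset V)) = ∅ := rfl
  rw [e1, e2, sdiff_empty, sdiff_empty] at h4
  have h5 : tt H (dg H) ≤ H.card := card_filter_le _ _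
  obtain ⟨e, he⟩ := h.ne
  have h6 : e.card ≤ (cov H).card := card_le_card fun v hv => mem_cov.2 ⟨e, he, hv⟩
  rw [h.u5 e he] at h6
  have h7 := h8_trace h.u5 h2
  have h8 := card_pos.2 ⟨e, he⟩
  unfold VB
  omega

end Pool.Agent.Work.MP_d266e7_co.C5.P24
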