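import Pool.Agent.Work.MP_d266e7_co.C5.GPlus

/-!
Definitions for the bound `44 tau ≤ 9 n + 7 m + 3 h` (5-uniform families), `h` the number of
traces. See `PLAN.md`. Words as in `C5`: a member is a node, a vertex is a block.
-/

namespace Pool.Agent.Work.MP_d266e7_co.C5.P24

open Finset

variable {V : Type} [DecidableEq V]

/-- the vertices in exactly one of the two sets -/
def sd (c w : Finset V) : Finset V := (c ∪ w) \ (c ∩ w)

/-- `p` contains two sets with three common vertices whose other vertices lie in one member -/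
def Tr (H : Finset (Finset V)) (p : Finset (Finset V)) : Prop :=
  ∃ c ∈ p, ∃ w ∈ p, (c ∩ w).card = 3 ∧ ∃ y ∈ H, sd c w ⊆ y

instance trDec (H : Finset (Finset V)) : DecidablePred (Tr H) := fun p => by
  unfold Tr
  infer_instance

/-- number of pairs of members of `X` that are traces of `H` -/
def hi (H X : Finset (Finset V)) : ℕ := ((X.powersetCard 2).filter (Tr H)).card

/-- a new node on the vertices `A` creates no trace that is not a trace of `H` -/
def Safe (H W : Finset (Finset V)) (A : Finset V) : Prop :=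
  ∀ c ∈ W, ∀ w ∈ W, (c ∩ w).card = 3 → sd c w ⊆ A → ∃ y ∈ H, sd c w ⊆ y

/-- two safe non-joint vertex families of sizes at least `p`, `q`, with room in `H` -/
def SGad (H W : Finset (Finset V)) (p q : ℕ) : Prop :=
  ∃ A B : Finset V, A ⊆ cov W ∧ B ⊆ cov W ∧ (∀ v ∈ A ∪ B, dg W v < dg H v) ∧ Cross W A B ∧
    p ≤ A.card ∧ q ≤ B.card ∧ Safe H W A ∧ Safe H W B

/-- two new nodes `a`, `b` on non-joint vertex families of `W` with a common vertex -/
structure Ear (W : Finset (Finset V)) (a b : Finset V) : Prop where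
  cc : CC W
  a5 : a.card = 5
  b5 : b.card = 5
  cross : Cross W (a ∩ cov W) (b ∩ cov W)
  da : 1 ≤ dd W a
  db : 1 ≤ dd W b
  com : (a ∩ b).Nonempty

/-- gain of the pair gadget for `VB` -/
def gainV (p q : ℕ) : ℕ :=
  if 4 ≤ p ∧ 4 ≤ q then 8 else if (4 ≤ p ∧ 3 ≤ q) ∨ (3 ≤ p ∧ 4 ≤ q) then 5
  else if (4 ≤ p ∧ 2 ≤ q) ∨ (2 ≤ p ∧ 4 ≤ q) then 3 else if 3 ≤ p ∧ 3 ≤ q then 2
  else if 2 ≤ p ∧ 2 ≤ q then 1 else 0

/-- the bound for maximum degree three with constant `c` -/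
def VB (X : Finset (Finset V)) (c : ℕ) : Prop :=
  27 * tau X + tt X (dg X) ≤ 8 * X.card + 3 * (cov X).card + hi X X + c

/-- the bound for a piece `W` of `H`, measured in `H`, with gain `g` -/
def PB (H W : Finset (Finset V)) (c g : ℕ) : Prop :=
  27 * tau W + tt W (dg H) + g ≤ 8 * W.card + 3 * (cov W).card + hi H W + c

/-- induction hypothesis for the gadgets on `W` -/
def IHV (W : Finset (Finset V)) (c : ℕ) : Prop :=
  ∀ X : Finset (Finset V), X.card ≤ W.card + 2 → CC X → (∀ v, dg X v ≤ 3) →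
    2 * tau X + W.card = 2 * tau W + X.card → (∃ v ∈ cov X, dg X v ≤ 2) → VB X c

/-- two pieces, three hosts, all other vertices of the hosts in `O` -/
structure Two (H W1 W2 : Finset (Finset V)) (q : Fin 3 → Finset V) (O : Finset V) : Prop where
  u5 : U5 H
  d3 : ∀ v, dg H v ≤ 3
  c1 : CC W1
  c2 : CC W2
  s1 : W1 ⊆ H
  s2 : W2 ⊆ H
  sep : Sep W1 W2
  qmem : ∀ x, q x ∈ H
  q1 : ∀ x, q x ∉ W1
  q2 : ∀ x, q x ∉ W2
  out : ∀ x, q x \ (cov W1 ∪ cov W2) ⊆ O
  nj1 : ∀ x y z, x ≠ y → x ≠ z → y ≠ z → 1 ≤ dd W2 (q z) → NJ W1 (q x) (q y)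
  nj2 : ∀ x y z, x ≠ y → x ≠ z → y ≠ z → 1 ≤ dd W1 (q z) → NJ W2 (q x) (q y)
  n1 : ∃ x y, x ≠ y ∧ 1 ≤ dd W1 (q x) ∧ 1 ≤ dd W1 (q y)
  n2 : ∃ x y, x ≠ y ∧ 1 ≤ dd W2 (q x) ∧ 1 ≤ dd W2 (q y)

/-- a smallest counterexample to the second tier of `VB` -/
structure Bad2 (H : Finset (Finset V)) : Prop where
  cc : CC H
  d3 : ∀ v, dg H v ≤ 3
  val : 2 * tau H = H.card
  small : ¬ VB H 2
  three : ∃ t, dg H t = 3
  step : ∀ t, dg H t = 3 →
    CC (H \ star H t) ∧ ∀ v ∈ cov H, v ≠ t → v ∈ cov (H \ star H t)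
  ih : ∀ X : Finset (Finset V), X.card < H.card → CC X → (∀ v, dg X v ≤ 3) →
    2 * tau X ≤ X.card → ¬ (X.card = 6 ∧ (cov X).card = 10) → VB X 2

end Pool.Agent.Work.MP_d266e7_co.C5.P24
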