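import Pool.Agent.Work.MP_d266e7_co.P24.Trace

/-!
Two new nodes `a`, `b` on a piece. `a ∩ b ∩ cov W` is empty (`exists_cover_mem`, `cross`), so
`a, b ∉ W` and `a ≠ b`. The proofs of `cc_ins`, `tau_ins` are those of `C5.exists_pair`
(`tau ≤ tau W + 1` by a common vertex, `>` by `min_sub` and `cross`; `absorb`, `tau_le_succ`,
`pair_conn_insert`).
-/

namespace Pool.Agent.Work.MP_d266e7_co.C5.P24

open Finset

variable {V : Type} [DecidableEq V]

theorem ear_of_nj {W : Finset (Finset V)} {x y : Finset V} (hW : CC W) (hx : x.card = 5)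
    (hy : y.card = 5) (h : NJ W x y) (h1 : 1 ≤ dd W x) (h2 : 1 ≤ dd W y)
    (hc : (x ∩ y).Nonempty) : Ear W x y := by
  exact ⟨hW, hx, hy, fun C hC hc' v hv w hw hvC hwC =>
    h.no_cover hC hc' (mem_inter.1 hv).1 (mem_inter.1 hw).1 hvC hwC, h1, h2, hc⟩

/-- fresh nodes on given vertex families with `k` common vertices -/
theorem exists_ear [Infinite V] {W : Finset (Finset V)} (hW : CC W) {A B : Finset V}
    (hA : A ⊆ cov W) (hB : B ⊆ cov W) (hc : Cross W A B) (h1 : 1 ≤ A.card) (h2 : 1 ≤ B.card)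
    {k : ℕ} (hk : 1 ≤ k) (h3 : A.card + k ≤ 5) (h4 : B.card + k ≤ 5) :
    ∃ a b : Finset V, Ear W a b ∧ a ∩ cov W = A ∧ b ∩ cov W = B ∧ (a ∩ b).card = k := by
  obtain ⟨Sh, hSh, dSh⟩ := exists_fresh (cov W) k
  obtain ⟨P, hP, dP⟩ := exists_fresh (cov W ∪ Sh) (5 - A.card - k)
  obtain ⟨Q, hQ, dQ⟩ := exists_fresh (cov W ∪ Sh ∪ P) (5 - B.card - k)
  have nSh : ∀ v ∈ Sh, v ∉ cov W := fun v hv => disjoint_left.1 dSh hv
  have nP : ∀ v ∈ P, v ∉ cov W := fun v hv h => disjoint_left.1 dP hv (mem_union_left _ h)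
  have nPS : ∀ v ∈ P, v ∉ Sh := fun v hv h => disjoint_left.1 dP hv (mem_union_right _ h)
  have nQ : ∀ v ∈ Q, v ∉ cov W := fun v hv h =>
    disjoint_left.1 dQ hv (mem_union_left _ (mem_union_left _ h))
  have nQS : ∀ v ∈ Q, v ∉ Sh := fun v hv h =>
    disjoint_left.1 dQ hv (mem_union_left _ (mem_union_right _ h))
  have nQP : ∀ v ∈ Q, v ∉ P := fun v hv h => disjoint_left.1 dQ hv (mem_union_right _ h)
  have hAB : ∀ v ∈ A, v ∉ B := fun v h1 h2 => by
    obtain ⟨C, a1, a2, a3⟩ := exists_cover_mem hW (hA h1)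
    exact hc C a1 a2.le v h1 v h2 a3 a3
  have cP : (Sh ∪ P).card = Sh.card + P.card := card_union_of_disjoint (disjoint_right.2 nPS)
  have cQ : (Sh ∪ Q).card = Sh.card + Q.card := card_union_of_disjoint (disjoint_right.2 nQS)
  have ca : (A ∪ (Sh ∪ P)).card = 5 := by
    rw [card_union_of_disjoint (disjoint_right.2 fun v hv h =>
      (mem_union.1 hv).elim (fun h' => nSh v h' (hA h)) (fun h' => nP v h' (hA h)))]
    omega
  have cb : (B ∪ (Sh ∪ Q)).card = 5 := by
    rw [card_union_of_disjoint (disjoint_right.2 fun v hv h =>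
      (mem_union.1 hv).elim (fun h' => nSh v h' (hB h)) (fun h' => nQ v h' (hB h)))]
    omega
  have ea : (A ∪ (Sh ∪ P)) ∩ cov W = A := by
    ext v
    simp only [mem_inter, mem_union]
    have := @hA v
    have := nSh v
    have := nP v
    tauto
  have eb : (B ∪ (Sh ∪ Q)) ∩ cov W = B := by
    ext v
    simp only [mem_inter, mem_union]
    have := @hB v
    have := nSh v
    have := nQ v
    tauto
  have ec : (A ∪ (Sh ∪ P)) ∩ (B ∪ (Sh ∪ Q)) = Sh := by
    ext v
    simp only [mem_inter, mem_union]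
    refine ⟨?_, fun h => ⟨Or.inr (Or.inl h), Or.inr (Or.inl h)⟩⟩
    rintro ⟨x | x | x, y | y | y⟩
    · exact absurd y (hAB v x)
    · exact y
    · exact absurd (hA x) (nQ v y)
    · exact x
    · exact x
    · exact x
    · exact absurd (hB y) (nP v x)
    · exact y
    · exact absurd x (nQP v y)
  refine ⟨A ∪ (Sh ∪ P), B ∪ (Sh ∪ Q), ⟨hW, ca, cb, ?_, ?_, ?_, ?_⟩, ea, eb, by rw [ec, hSh]⟩
  · rwa [ea, eb]
  · rwa [dd, ea]
  · rwa [dd, eb]
  · rw [ec]
    exact card_pos.1 (by omega)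

namespace Ear

variable {W : Finset (Finset V)} {a b : Finset V}

theorem symm (h : Ear W a b) : Ear W b a := by
  exact ⟨h.cc, h.b5, h.a5, h.cross.symm, h.db, h.da, inter_comm a b ▸ h.com⟩

theorem out (h : Ear W a b) {v : V} (ha : v ∈ a) (hb : v ∈ b) : v ∉ cov W := by
  intro hv
  obtain ⟨C, a1, a2, a3⟩ := exists_cover_mem h.cc hv
  exact h.cross C a1 a2.le v (mem_inter.2 ⟨ha, hv⟩) v (mem_inter.2 ⟨hb, hv⟩) a3 a3

theorem aW (h : Ear W a b) : a ∉ W := by
  obtain ⟨s, hs⟩ := h.com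
  exact fun e => h.out (mem_inter.1 hs).1 (mem_inter.1 hs).2 (mem_cov.2 ⟨a, e, (mem_inter.1 hs).1⟩)

theorem bW (h : Ear W a b) : b ∉ W := by
  exact h.symm.aW

theorem ne (h : Ear W a b) : a ≠ b := by
  intro e
  obtain ⟨v, hv⟩ := card_pos.1 h.da
  exact h.out (mem_inter.1 hv).1 (e ▸ (mem_inter.1 hv).1) (mem_inter.1 hv).2

theorem ear_abW (h : Ear W a b) : a ∉ insert b W := fun e => (mem_insert.1 e).elim h.ne h.aW

theorem ear_u5 (h : Ear W a b) : U5 (insert a (insert b W)) := fun e he => by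
  rcases mem_insert.1 he with rfl | he
  · exact h.a5
  rcases mem_insert.1 he with rfl | he
  · exact h.b5
  · exact h.cc.u5 e he

theorem card_ins (h : Ear W a b) : (insert a (insert b W)).card = W.card + 2 := by
  rw [card_insert_of_notMem h.ear_abW, card_insert_of_notMem h.bW]

theorem tau_ins (h : Ear W a b) : tau (insert a (insert b W)) = tau W + 1 := by
  obtain ⟨s, hs⟩ := h.com
  refine le_antisymm (tau_le_succ h.cc.u5.ne s fun e he => ?_) ?_
  · rcases mem_insert.1 he with rfl | he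
    · exact Or.inr (mem_inter.1 hs).1
    rcases mem_insert.1 he with rfl | he
    · exact Or.inr (mem_inter.1 hs).2
    · exact Or.inl he
  · by_contra hlt
    obtain ⟨C, c1, c2⟩ := exists_opt h.ear_u5.ne
    have c3 : Hits C W := fun e he => c1 e (mem_insert_of_mem (mem_insert_of_mem he))
    have c4 : C.card ≤ tau W := by omega
    have c5 := min_sub c3 c4
    obtain ⟨v, a1, a2⟩ := c1 a (mem_insert_self _ _)
    obtain ⟨w, b1, b2⟩ := c1 b (mem_insert_of_mem (mem_insert_self _ _))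
    exact h.cross C c3 c4 v (mem_inter.2 ⟨a1, c5 a2⟩) w (mem_inter.2 ⟨b1, c5 b2⟩) a2 b2

theorem cc_ins (h : Ear W a b) : CC (insert a (insert b W)) := by
  obtain ⟨s, hs⟩ := h.com
  refine ⟨h.ear_u5, fun e he => ?_, ?_, insert_nonempty _ _⟩
  · rw [h.tau_ins]
    rcases mem_insert.1 he with rfl | he
    · rw [erase_insert h.ear_abW]
      exact Nat.lt_succ_of_le (absorb h.cc h.db)
    rcases mem_insert.1 he with rfl | he
    · rw [Finset.insert_comm, erase_insert h.symm.ear_abW]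
      exact Nat.lt_succ_of_le (absorb h.cc h.da)
    · have h5 := h.cc.crit e he
      have h6 : tau ((insert a (insert b W)).erase e) ≤ tau (W.erase e) + 1 :=
        tau_le_succ (h.cc.u5.ne.mono (erase_subset _ _)) s fun f hf => by
          obtain ⟨f1, f2⟩ := mem_erase.1 hf
          rcases mem_insert.1 f2 with rfl | f2
          · exact Or.inr (mem_inter.1 hs).1
          rcases mem_insert.1 f2 with rfl | f2
          · exact Or.inr (mem_inter.1 hs).2
          · exact Or.inl (mem_erase.2 ⟨f1, f2⟩)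
      omega
  · obtain ⟨w, hw, haw⟩ := dd_pos.1 h.da
    obtain ⟨w', hw', hbw⟩ := dd_pos.1 h.db
    exact pair_conn_insert (pair_conn_insert h.cc.conn ⟨w', hw', hbw⟩)
      ⟨w, mem_insert_of_mem hw, haw⟩

theorem cov_ins (h : Ear W a b) :
    (cov (insert a (insert b W))).card = (cov W).card + ((a ∪ b) \ cov W).card := by
  rw [pair_cov_insert, pair_cov_insert, ← union_assoc, ← card_sdiff_add_card, add_comm]

theorem new_card (h : Ear W a b) :
    ((a ∪ b) \ cov W).card + dd W a + dd W b + (a ∩ b).card = 10 := by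
  have e1 := card_sdiff_add_card_inter (a ∪ b) (cov W)
  have e2 := card_union_add_card_inter a b
  have e3 : ((a ∪ b) ∩ cov W).card = dd W a + dd W b := by
    rw [union_inter_distrib_right]
    exact card_union_of_disjoint (disjoint_left.2 fun v h1 h2 =>
      h.out (mem_inter.1 h1).1 (mem_inter.1 h2).1 (mem_inter.1 h1).2)
  have := h.a5
  have := h.b5
  omega

theorem dg_ins (h : Ear W a b) (v : V) : dg (insert a (insert b W)) v =
    dg W v + (if v ∈ a then 1 else 0) + if v ∈ b then 1 else 0 := by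
  rw [pair_dg_insert h.ear_abW, pair_dg_insert h.bW, add_right_comm]

theorem two (h : Ear W a b) :
    ∃ v ∈ cov (insert a (insert b W)), dg (insert a (insert b W)) v ≤ 2 := by
  obtain ⟨s, hs⟩ := h.com
  obtain ⟨sa, sb⟩ := mem_inter.1 hs
  refine ⟨s, mem_cov.2 ⟨a, mem_insert_self _ _, sa⟩, ?_⟩
  have h0 : ¬ 1 ≤ dg W s := fun e => h.out sa sb (dg_pos.1 e)
  rw [h.dg_ins, if_pos sa, if_pos sb]
  omega

end Ear

end Pool.Agent.Work.MP_d266e7_co.C5.P24
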