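import Pool.Agent.Work.MP_d266e7_co.P24.Ear

/-!
`tt_ins`: a vertex of `a` outside `cov W` and `b` has degree one (`dg_ins`); there are
`5 - dd W a - |a ∩ b|` of them (`out`); compare `C5.gain_sub`.
`hi_one` (one common vertex `s`): let `{c, w}` be a trace of `X`. If `c = a` and `w ∈ W`, then
`s ∈ sd a w ⊆ y` forces `y = a` or `y = b`; `y = a` is impossible (`w \ a` is not empty), and
for `y = b` the set `a \ w` has two vertices, both in `a ∩ b`. `{a, b}` has one common vertex.
So `c, w ∈ W`, and `y ∈ W ⊆ H`, or `sd c w ⊆ a ∩ cov W`, or `⊆ b ∩ cov W`; use `Safe`.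
`hi_two`: a new node has only two vertices in `cov W`, so only `{a, b}` can be a new trace.
-/

namespace Pool.Agent.Work.MP_d266e7_co.C5.P24

open Finset

variable {V : Type} [DecidableEq V]

theorem earhi_pair {X p : Finset (Finset V)} (hp : p ∈ X.powersetCard 2) {c w : Finset V}
    (hc : c ∈ p) (hw : w ∈ p) (h5 : c.card = 5) (h3 : (c ∩ w).card = 3) : p = {c, w} := by
  have h1 : c ≠ w := fun e => by
    rw [← e, inter_self] at h3
    omega
  refine (eq_of_subset_of_card_le (insert_subset hc (singleton_subset_iff.2 hw)) ?_).symm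
  rw [card_pair h1, (mem_powersetCard.1 hp).2]

theorem earhi_sd {W : Finset (Finset V)} {c w y : Finset V} (hc : c ∈ W) (hw : w ∈ W)
    (h : sd c w ⊆ y) : sd c w ⊆ y ∩ cov W := fun v hv => mem_inter.2 ⟨h hv, by
  rcases mem_sd.1 hv with h1 | h1
  · exact mem_cov.2 ⟨c, hc, h1.1⟩
  · exact mem_cov.2 ⟨w, hw, h1.2⟩⟩

theorem earhi_old {H W p : Finset (Finset V)} {c w : Finset V} (e : p = {c, w}) (h2 : p.card = 2)
    (hc : c ∈ W) (hw : w ∈ W) (h3 : (c ∩ w).card = 3) (h : ∃ y ∈ H, sd c w ⊆ y) :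
    p ∈ (W.powersetCard 2).filter (Tr H) := by
  subst e
  exact mem_filter.2 ⟨mem_powersetCard.2 ⟨insert_subset hc (singleton_subset_iff.2 hw), h2⟩,
    c, mem_insert_self _ _, w, mem_insert_of_mem (mem_singleton_self w), h3, h⟩

namespace Ear

variable {W : Finset (Finset V)} {a b : Finset V}

theorem earhi_u5 (h : Ear W a b) {c : Finset V} (hc : c ∈ insert a (insert b W)) : c.card = 5 :=
  h.cc_ins.u5 c hc

theorem earhi_priv (h : Ear W a b) (h3 : dd W a + (a ∩ b).card ≤ 3) :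
    2 ≤ (a.filter fun v => dg (insert a (insert b W)) v ≤ 1).card := by
  have h1 : a ⊆ (a ∩ cov W ∪ a ∩ b) ∪ a.filter fun v => dg (insert a (insert b W)) v ≤ 1 := by
    intro v hv
    by_cases h2 : v ∈ cov W
    · exact mem_union_left _ (mem_union_left _ (mem_inter.2 ⟨hv, h2⟩))
    by_cases h4 : v ∈ b
    · exact mem_union_left _ (mem_union_right _ (mem_inter.2 ⟨hv, h4⟩))
    refine mem_union_right _ (mem_filter.2 ⟨hv, ?_⟩)
    rw [h.dg_ins, gain_out h2, if_pos hv, if_neg h4]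
  have h2 := (card_le_card h1).trans (card_union_le _ _)
  have h4 := card_union_le (a ∩ cov W) (a ∩ b)
  have h5 := h.a5
  unfold dd at h3
  omega

/-- a new node with two private vertices adds one to `tt` -/
theorem tt_ins (h : Ear W a b) {d : V → ℕ}
    (hd : ∀ v ∈ cov W, dg (insert a (insert b W)) v ≤ d v) :
    tt W d + (if dd W a + (a ∩ b).card ≤ 3 then 1 else 0) +
      (if dd W b + (a ∩ b).card ≤ 3 then 1 else 0) ≤
        tt (insert a (insert b W)) (dg (insert a (insert b W))) := by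
  have h1 := tt_mono hd
  have h2 := h.earhi_priv
  have h3 := h.symm.earhi_priv
  rw [inter_comm, insert_comm] at h3
  have h4 : a ∉ insert b W := fun e => (mem_insert.1 e).elim h.ne h.aW
  generalize dg (insert a (insert b W)) = D at h1 h2 h3 ⊢
  unfold tt at h1 ⊢
  rw [card_filter _ (insert a _), sum_insert h4, sum_insert h.bW, ← card_filter]
  split_ifs <;> omega

theorem earhi_new (h : Ear W a b) (h1 : (a ∩ b).card = 1) {w y : Finset V} (hw : w ∈ W)
    (h3 : (a ∩ w).card = 3) (hy : y = a ∨ y = b ∨ y ∈ W) : ¬ sd a w ⊆ y := by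
  intro hs
  have h5 := h.a5
  have h6 := h.cc.u5 w hw
  rcases hy with rfl | rfl | hy
  · have h2 : w ⊆ y ∩ w := fun v hv => mem_inter.2 ⟨by
      by_contra h4
      exact h4 (hs (mem_sd.2 (Or.inr ⟨h4, hv⟩))), hv⟩
    have h4 := card_le_card h2
    omega
  · have h2 : a \ w ⊆ a ∩ y := fun v hv =>
      mem_inter.2 ⟨(mem_sdiff.1 hv).1, hs (mem_sd.2 (Or.inl (mem_sdiff.1 hv)))⟩
    have h4 := card_le_card h2
    have h7 := card_sdiff_add_card_inter a w
    omega
  · obtain ⟨s, h2⟩ := h.com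
    obtain ⟨h4, h7⟩ := mem_inter.1 h2
    have h8 := h.out h4 h7
    exact h8 (mem_cov.2 ⟨y, hy, hs (mem_sd.2 (Or.inl ⟨h4, fun e => h8 (mem_cov.2 ⟨w, hw, e⟩)⟩))⟩)

theorem hi_one (h : Ear W a b) {H : Finset (Finset V)} (hs : W ⊆ H) (h1 : (a ∩ b).card = 1)
    (ha : Safe H W (a ∩ cov W)) (hb : Safe H W (b ∩ cov W)) :
    hi (insert a (insert b W)) (insert a (insert b W)) ≤ hi H W := by
  refine card_le_card fun p hp => ?_
  obtain ⟨hp, c, hc, w, hw, h3, y, hy, hsd⟩ := mem_filter.1 hp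
  obtain ⟨h4, h2⟩ := mem_powersetCard.1 hp
  have e := earhi_pair hp hc hw (h.earhi_u5 (h4 hc)) h3
  have hc' := h4 hc
  have hw' := h4 hw
  have h1' : (b ∩ a).card = 1 := by rwa [inter_comm]
  have h5 := h.a5
  have h6 := h.b5
  simp only [mem_insert] at hc' hw' hy
  rcases hc' with rfl | rfl | hc' <;> rcases hw' with rfl | rfl | hw'
  · rw [inter_self] at h3
    omega
  · omega
  · exact absurd hsd (h.earhi_new h1 hw' h3 hy)
  · omega
  · rw [inter_self] at h3
    omega
  · exact absurd hsd (h.symm.earhi_new h1' hw' h3 (or_left_comm.1 hy))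
  · exact absurd (sd_comm c w ▸ hsd) (h.earhi_new h1 hc' (by rwa [inter_comm]) hy)
  · exact absurd (sd_comm c w ▸ hsd)
      (h.symm.earhi_new h1' hc' (by rwa [inter_comm]) (or_left_comm.1 hy))
  · refine earhi_old e h2 hc' hw' h3 ?_
    rcases hy with rfl | rfl | hy
    · exact ha c hc' w hw' h3 (earhi_sd hc' hw' hsd)
    · exact hb c hc' w hw' h3 (earhi_sd hc' hw' hsd)
    · exact ⟨y, hs hy, hsd⟩

theorem hi_two (h : Ear W a b) {H : Finset (Finset V)} (hs : W ⊆ H) (ha : dd W a ≤ 2)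
    (hb : dd W b ≤ 2) :
    hi (insert a (insert b W)) (insert a (insert b W)) ≤ hi H W + 1 := by
  refine le_trans (card_le_card fun p hp => ?_)
    (card_insert_le {a, b} ((W.powersetCard 2).filter (Tr H)))
  obtain ⟨hp, c, hc, w, hw, h3, y, hy, hsd⟩ := mem_filter.1 hp
  obtain ⟨h4, h2⟩ := mem_powersetCard.1 hp
  have e := earhi_pair hp hc hw (h.earhi_u5 (h4 hc)) h3
  have hc' := h4 hc
  have hw' := h4 hw
  have h5 := h.a5
  have h6 := h.b5
  have h7 : ∀ x, ∀ z ∈ W, (x ∩ z).card ≤ dd W x := fun x z hz => card_le_card fun v hv =>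
    mem_inter.2 ⟨(mem_inter.1 hv).1, mem_cov.2 ⟨z, hz, (mem_inter.1 hv).2⟩⟩
  simp only [mem_insert] at hc' hw' hy
  rcases hc' with rfl | rfl | hc' <;> rcases hw' with rfl | rfl | hw'
  · rw [inter_self] at h3
    omega
  · exact mem_insert.2 (Or.inl e)
  · have := h7 c w hw'
    omega
  · exact mem_insert.2 (Or.inl (e.trans (pair_comm _ _)))
  · rw [inter_self] at h3
    omega
  · have := h7 c w hw'
    omega
  · have := h7 w c hc'
    rw [inter_comm] at h3
    omega
  · have := h7 w c hc'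
    rw [inter_comm] at h3
    omega
  · refine mem_insert_of_mem (earhi_old e h2 hc' hw' h3 ?_)
    have h8 := sd_card (h.cc.u5 c hc') (h.cc.u5 w hw') h3
    have h9 : (sd c w).card ≤ dd W y := card_le_card (earhi_sd hc' hw' hsd)
    rcases hy with rfl | rfl | hy
    · omega
    · omega
    · exact ⟨y, hs hy, hsd⟩

end Ear

end Pool.Agent.Work.MP_d266e7_co.C5.P24
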