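import Pool.Agent.Work.MP_d266e7_co.P24.Trace

/-!
Safe vertex families; compare `C5/Hosts.lean` (`cross_of_nj`, `hosts_two`, `dg_lt`).
`safe_cross`: let `sd c w ⊆ A1 ∪ A2`, `c \ w = {α, α'}`, `w \ c = {β, β'}`. A minimum transversal
`T` of `W.erase c` has `tau W - 1` elements, so it misses `c` and meets `w` in some `β`;
`insert α T` and `insert α' T` are minimum transversals of `W`. So `β` is joint with both
vertices of `c \ w`, and in the same way some vertex of `c \ w` is joint with both vertices of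
`w \ c`. Joint vertices of `A1 ∪ A2` are both outside `A1` or both outside `A2` or both in one
(`Cross`; note `A1 ∩ A2 ∩ cov W` is empty by `exists_cover_mem`), hence `sd c w ⊆ A1` or
`sd c w ⊆ A2`.
-/

namespace Pool.Agent.Work.MP_d266e7_co.C5.P24

open Finset

variable {V : Type} [DecidableEq V]

theorem Safe.mono {H W : Finset (Finset V)} {A A' : Finset V} (h : Safe H W A) (hA : A' ⊆ A) :
    Safe H W A' := by
  exact fun c hc w hw h3 hs => h c hc w hw h3 (hs.trans hA)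

theorem safe_host {H W : Finset (Finset V)} {A y : Finset V} (hy : y ∈ H) (h : A ⊆ y) :
    Safe H W A := by
  exact fun c _ w _ _ hs => ⟨y, hy, hs.trans h⟩

theorem safe_small {H W : Finset (Finset V)} (hW : U5 W) {A : Finset V} (h : A.card ≤ 3) :
    Safe H W A := by
  intro c hc w hw h3 hs
  have h4 := sd_card (hW c hc) (hW w hw) h3
  have h5 := card_le_card hs
  omega

theorem safe_joint {W : Finset (Finset V)} (hW : CC W) {c w : Finset V} (hc : c ∈ W) (hw : w ∈ W)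
    (hne : w ≠ c) : ∃ b ∈ w, b ∉ c ∧ ∀ a ∈ c, ∃ C, Hits C W ∧ C.card ≤ tau W ∧ a ∈ C ∧ b ∈ C := by
  obtain ⟨T, hT, hc'⟩ := exists_opt (hW.u5.ne.mono (erase_subset c W))
  have hlt := hW.crit c hc
  obtain ⟨b, hb, hbT⟩ := hT w (mem_erase.2 ⟨hne, hw⟩)
  have key : ∀ a ∈ c, Hits (insert a T) W := fun a ha e he => by
    by_cases hec : e = c
    · exact ⟨a, hec ▸ ha, mem_insert_self _ _⟩
    · obtain ⟨v, hv, hvT⟩ := hT e (mem_erase.2 ⟨hec, he⟩)
      exact ⟨v, hv, mem_insert_of_mem hvT⟩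
  refine ⟨b, hb, fun hbc => ?_, fun a ha => ⟨insert a T, key a ha, ?_, mem_insert_self _ _,
    mem_insert_of_mem hbT⟩⟩
  · have h1 := tau_le (key b hbc)
    rw [insert_eq_of_mem hbT] at h1
    omega
  · have h1 := card_insert_le a T
    omega

theorem safe_symm {W : Finset (Finset V)} {A B : Finset V} (h : Cross W A B) : Cross W B A :=
  fun C hC hc v hv w hw h1 h2 => h C hC hc w hw v hv h2 h1

theorem safe_sub {W : Finset (Finset V)} {A1 A2 c w : Finset V} (hx : Cross W A1 A2)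
    (hs : sd c w ⊆ A1 ∪ A2) {a b : V} (ha : a ∈ c) (haw : a ∉ w)
    (hb' : ∀ a ∈ c, ∃ C, Hits C W ∧ C.card ≤ tau W ∧ a ∈ C ∧ b ∈ C)
    (ha' : ∀ b ∈ w, ∃ C, Hits C W ∧ C.card ≤ tau W ∧ b ∈ C ∧ a ∈ C) (hb1 : b ∈ A1) :
    sd c w ⊆ A1 := by
  have k1 : ∀ v ∈ c, v ∉ w → v ∈ A1 := fun v hv hvw => by
    obtain ⟨C, h1, h2, h3, h4⟩ := hb' v hv
    exact (mem_union.1 (hs (mem_sd.2 (Or.inl ⟨hv, hvw⟩)))).resolve_right
      fun h => hx C h1 h2 b hb1 v h h4 h3
  intro v hv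
  rcases mem_sd.1 hv with h | h
  · exact k1 v h.1 h.2
  · obtain ⟨C, h1, h2, h3, h4⟩ := ha' v h.2
    exact (mem_union.1 (hs hv)).resolve_right fun h' => hx C h1 h2 a (k1 a ha haw) v h' h4 h3

theorem safe_cross {H W : Finset (Finset V)} (hW : CC W) {A1 A2 : Finset V} (hc : Cross W A1 A2)
    (h1 : Safe H W A1) (h2 : Safe H W A2) : Safe H W (A1 ∪ A2) := by
  intro c hcW w hw h3 hs
  have hne : w ≠ c := fun e => by
    rw [e, inter_self, hW.u5 c hcW] at h3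
    omega
  obtain ⟨b, hb, hbc, hb'⟩ := safe_joint hW hcW hw hne
  obtain ⟨a, ha, haw, ha'⟩ := safe_joint hW hw hcW hne.symm
  rcases mem_union.1 (hs (mem_sd.2 (Or.inr ⟨hbc, hb⟩))) with h | h
  · exact h1 c hcW w hw h3 (safe_sub hc hs ha haw hb' ha' h)
  · exact h2 c hcW w hw h3 (safe_sub (safe_symm hc) (union_comm A1 A2 ▸ hs) ha haw hb' ha' h)

theorem SGad.mono {H W : Finset (Finset V)} {p q p' q' : ℕ} (h : SGad H W p q) (hp : p' ≤ p)
    (hq : q' ≤ q) : SGad H W p' q' := by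
  obtain ⟨A, B, h1, h2, h3, h4, h5, h6, h7⟩ := h
  exact ⟨A, B, h1, h2, h3, h4, hp.trans h5, hq.trans h6, h7⟩

theorem SGad.symm {H W : Finset (Finset V)} {p q : ℕ} (h : SGad H W p q) : SGad H W q p := by
  obtain ⟨A, B, h1, h2, h3, h4, h5, h6, h7, h8⟩ := h
  exact ⟨B, A, h2, h1, fun v hv => h3 v (union_comm B A ▸ hv), safe_symm h4, h6, h5, h8, h7⟩

theorem safe_hosts {H W N M : Finset (Finset V)} {B : Finset V} {p q : ℕ} (hs : W ⊆ H)
    (hN : ∀ x ∈ N, x ∈ H ∧ x ∉ W) (hM : ∀ x ∈ M, x ∈ H ∧ x ∉ W) (h : ∀ x ∈ N, ∀ y ∈ M, NJ W x y)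
    (hB : B ⊆ cov M ∩ cov W) (hp : p ≤ (cov N ∩ cov W).card) (hq : q ≤ B.card)
    (sA : Safe H W (cov N ∩ cov W)) (sB : Safe H W B) : SGad H W p q := by
  refine ⟨cov N ∩ cov W, B, inter_subset_right, hB.trans inter_subset_right, fun v hv => ?_,
    fun C h1 h2 v hv w hw => cross_of_nj h C h1 h2 v hv w (hB hw), hp, hq, sA, sB⟩
  rcases mem_union.1 hv with hv | hv
  · obtain ⟨x, hx, hvx⟩ := mem_cov.1 (mem_inter.1 hv).1
    exact dg_lt hs (hN x hx).1 (hN x hx).2 hvx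
  · obtain ⟨x, hx, hvx⟩ := mem_cov.1 (mem_inter.1 (hB hv)).1
    exact dg_lt hs (hM x hx).1 (hM x hx).2 hvx

theorem safe_one {H W : Finset (Finset V)} {x : Finset V} (hx : x ∈ H) :
    Safe H W (cov {x} ∩ cov W) := by
  rw [cov_singleton]
  exact safe_host hx inter_subset_left

theorem safe_two {H W : Finset (Finset V)} {x y : Finset V} (hW : CC W) (hx : x ∈ H) (hy : y ∈ H)
    (h : NJ W x y) : Safe H W (cov {x, y} ∩ cov W) := by
  refine (safe_cross hW (cross_of_nj (N := {x}) (M := {y}) ?_) (safe_one hx) (safe_one hy)).mono ?_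
  · simpa only [mem_singleton, forall_eq] using h
  · rw [← union_inter_distrib_right, ← cov_union, ← insert_eq]

theorem sgad11 {H W : Finset (Finset V)} {x y : Finset V} (hs : W ⊆ H) (hx : x ∈ H)
    (hy : y ∈ H) (hxW : x ∉ W) (hyW : y ∉ W) (h : NJ W x y) : SGad H W (dd W x) (dd W y) := by
  refine safe_hosts (N := {x}) (M := {y}) hs ?_ ?_ ?_ Subset.rfl (hosts_one W x) (hosts_one W y)
    (safe_one hx) (safe_one hy) <;> simp only [mem_singleton, forall_eq]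
  exacts [⟨hx, hxW⟩, ⟨hy, hyW⟩, h]

theorem sgad12 {H W : Finset (Finset V)} {x y z : Finset V} (hW : CC W) (hs : W ⊆ H) (hx : x ∈ H)
    (hy : y ∈ H) (hz : z ∈ H) (hxW : x ∉ W) (hyW : y ∉ W) (hzW : z ∉ W) (h1 : NJ W x y)
    (h2 : NJ W x z) (h3 : NJ W y z) : SGad H W (dd W x) (dd W y + dd W z) := by
  refine safe_hosts (N := {x}) (M := {y, z}) hs ?_ ?_ ?_ Subset.rfl (hosts_one W x)
    (hosts_two hW h3) (safe_one hx) (safe_two hW hy hz h3) <;>
    simp only [mem_insert, mem_singleton, forall_eq_or_imp, forall_eq]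
  exacts [⟨hx, hxW⟩, ⟨⟨hy, hyW⟩, hz, hzW⟩, ⟨h1, h2⟩]

theorem sgad22 {H W : Finset (Finset V)} {x y z w : Finset V} (hW : CC W) (hs : W ⊆ H)
    (hx : x ∈ H) (hy : y ∈ H) (hz : z ∈ H) (hw : w ∈ H) (hxW : x ∉ W) (hyW : y ∉ W)
    (hzW : z ∉ W) (hwW : w ∉ W) (h1 : NJ W x y) (h2 : NJ W x z) (h3 : NJ W x w) (h4 : NJ W y z)
    (h5 : NJ W y w) (h6 : NJ W z w) : SGad H W (dd W x + dd W y) (dd W z + dd W w) := by
  refine safe_hosts (N := {x, y}) (M := {z, w}) hs ?_ ?_ ?_ Subset.rfl (hosts_two hW h1)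
    (hosts_two hW h6) (safe_two hW hx hy h1) (safe_two hW hz hw h6) <;>
    simp only [mem_insert, mem_singleton, forall_eq_or_imp, forall_eq]
  exacts [⟨⟨hx, hxW⟩, hy, hyW⟩, ⟨⟨hz, hzW⟩, hw, hwW⟩, ⟨⟨h2, h3⟩, h4, h5⟩]

/-- one host against a family of hosts; at most three vertices of the family are used -/
theorem sgad1N {H W N : Finset (Finset V)} {x : Finset V} (hW : CC W) (hs : W ⊆ H) (hx : x ∈ H)
    (hxW : x ∉ W) (hN : ∀ y ∈ N, y ∈ H ∧ y ∉ W ∧ NJ W x y) :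
    SGad H W (dd W x) (min (cov N ∩ cov W).card 3) := by
  obtain ⟨B, hB, hc⟩ := exists_subset_card_eq (min_le_left (cov N ∩ cov W).card 3)
  refine safe_hosts (N := {x}) (M := N) hs (fun y hy => ?_)
    (fun y hy => ⟨(hN y hy).1, (hN y hy).2.1⟩) (fun y hy z hz => ?_) hB (hosts_one W x) hc.ge
    (safe_one hx) (safe_small hW.u5 (hc.le.trans (min_le_right _ _)))
  · rw [mem_singleton.1 hy]
    exact ⟨hx, hxW⟩
  · rw [mem_singleton.1 hy]
    exact (hN z hz).2.2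

end Pool.Agent.Work.MP_d266e7_co.C5.P24
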