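import Pool.Agent.Work.MP_d266e7_co.P24.EarHi
import Pool.Agent.Work.MP_d266e7_co.P24.Safe

/-!
Gains. `pb_zero`: `IHV` for `X = W`, `tt_mono`, `hi_mono`. `pb_gain`: choose subsets of sizes
(4,4), (4,3), (4,2), (3,3) with one common vertex (`exists_ear`, `Ear.hi_one`; the number of new
vertices is `9 - |A| - |B|`, `Ear.tt_ins` adds one for a family of size two) or (2,2) with three
common vertices (`Ear.hi_two`); the degrees on `cov W` stay below those of `H` because the two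
families are disjoint (`Ear.out`). `pb_real`: `X = insert x (insert y W) ⊆ H`, `ear_of_nj`.
-/

namespace Pool.Agent.Work.MP_d266e7_co.C5.P24

open Finset

variable {V : Type} [DecidableEq V]

theorem gainV_comm (p q : ℕ) : gainV p q = gainV q p := by
  unfold gainV
  split_ifs <;> omega

theorem gainV_mono {p q p' q' : ℕ} (hp : p ≤ p') (hq : q ≤ q') : gainV p q ≤ gainV p' q' := by
  unfold gainV
  split_ifs <;> omega

theorem pb_zero {H W : Finset (Finset V)} {c : ℕ} (ih : IHV W c) (hW : CC W) (hs : W ⊆ H)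
    (h3 : ∀ v, dg H v ≤ 3) (hr : ∃ v ∈ cov W, dg W v < dg H v) : PB H W c 0 := by
  obtain ⟨v, hv, h⟩ := hr
  have h1 : VB W c := ih W (by omega) hW (fun v => (dg_mono hs v).trans (h3 v)) rfl
    ⟨v, hv, by have := h3 v; omega⟩
  have h2 : tt W (dg H) ≤ tt W (dg W) := tt_mono fun v _ => dg_mono hs v
  have h4 : hi W W ≤ hi H W := hi_mono hs Subset.rfl
  unfold VB at h1
  unfold PB
  omega

theorem gainv_ear {H W : Finset (Finset V)} {c : ℕ} (ih : IHV W c) {a b : Finset V}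
    (e : Ear W a b) (h3 : ∀ v, dg H v ≤ 3)
    (hd : ∀ v ∈ cov W, dg (insert a (insert b W)) v ≤ dg H v) :
    27 * tau W + tt W (dg H) + (if dd W a + (a ∩ b).card ≤ 3 then 1 else 0) +
      (if dd W b + (a ∩ b).card ≤ 3 then 1 else 0) + 11 ≤ 8 * W.card + 3 * (cov W).card +
      3 * ((a ∪ b) \ cov W).card + hi (insert a (insert b W)) (insert a (insert b W)) + c := by
  have h1 := e.card_ins
  have h2 := e.tau_ins
  have h4 := e.cov_ins
  have h5 := e.tt_ins hd
  have h6 : VB (insert a (insert b W)) c := ih _ h1.le e.cc_ins (fun v => by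
    by_cases hv : v ∈ cov W
    · exact (hd v hv).trans (h3 v)
    · rw [e.dg_ins, gain_out hv]
      split_ifs <;> omega) (by omega) e.two
  unfold VB at h6
  omega

theorem gainv_sub [Infinite V] {H W : Finset (Finset V)} (hW : CC W) (hs : W ⊆ H) {p q : ℕ}
    (hg : SGad H W p q) (hp : 1 ≤ p) (hq : 1 ≤ q) {k : ℕ} (hk : 1 ≤ k) (h1 : p + k ≤ 5)
    (h2 : q + k ≤ 5) : ∃ a b, Ear W a b ∧ dd W a = p ∧ dd W b = q ∧ (a ∩ b).card = k ∧
      Safe H W (a ∩ cov W) ∧ Safe H W (b ∩ cov W) ∧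
      ∀ v ∈ cov W, dg (insert a (insert b W)) v ≤ dg H v := by
  obtain ⟨A, B, hA, hB, hr, hc, k1, k2, s1, s2⟩ := hg
  obtain ⟨A0, a1, rfl⟩ := exists_subset_card_eq k1
  obtain ⟨B0, b1, rfl⟩ := exists_subset_card_eq k2
  obtain ⟨a, b, e, rfl, rfl, h3⟩ :=
    exists_ear hW (a1.trans hA) (b1.trans hB) (hc.mono a1 b1) hp hq hk h1 h2
  refine ⟨a, b, e, rfl, rfl, h3, s1.mono a1, s2.mono b1, fun v hv => ?_⟩
  have h4 := dg_mono hs v
  rw [e.dg_ins]
  by_cases ha : v ∈ a
  · have h5 := hr v (mem_union_left _ (a1 (mem_inter.2 ⟨ha, hv⟩)))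
    rw [if_pos ha, if_neg fun hb => e.out ha hb hv]
    omega
  · rw [if_neg ha]
    split_ifs with hb
    · have h5 := hr v (mem_union_right _ (b1 (mem_inter.2 ⟨hb, hv⟩)))
      omega
    · omega

theorem gainv_one [Infinite V] {H W : Finset (Finset V)} {c : ℕ} (ih : IHV W c) (hW : CC W)
    (hs : W ⊆ H) (h3 : ∀ v, dg H v ≤ 3) {p q : ℕ} (hg : SGad H W p q) (hp : 1 ≤ p) (hq : 1 ≤ q)
    (h1 : p ≤ 4) (h2 : q ≤ 4) {g : ℕ}
    (h : g + 16 ≤ 3 * (p + q) + (if p ≤ 2 then 1 else 0) + if q ≤ 2 then 1 else 0) :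
    PB H W c g := by
  obtain ⟨a, b, e, rfl, rfl, k1, s1, s2, hd⟩ :=
    gainv_sub hW hs hg hp hq le_rfl (by omega) (by omega)
  have k2 := gainv_ear ih e h3 hd
  have k3 := e.hi_one hs k1 s1 s2
  have k4 := e.new_card
  rw [k1] at k2 k4
  unfold PB
  split_ifs at h k2 <;> omega

theorem pb_gain [Infinite V] {H W : Finset (Finset V)} {c : ℕ} (ih : IHV W c) (hW : CC W)
    (hs : W ⊆ H) (h3 : ∀ v, dg H v ≤ 3) (hr : ∃ v ∈ cov W, dg W v < dg H v) {p q : ℕ}
    (hg : SGad H W p q) : PB H W c (gainV p q) := by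
  unfold gainV
  split_ifs with h1 h2 h4 h5 h6
  · exact gainv_one ih hW hs h3 (hg.mono h1.1 h1.2) (by omega) (by omega) le_rfl le_rfl (by simp)
  · rcases h2 with h | h <;>
    exact gainv_one ih hW hs h3 (hg.mono h.1 h.2) (by omega) (by omega) (by omega) (by omega)
      (by simp)
  · rcases h4 with h | h <;>
    exact gainv_one ih hW hs h3 (hg.mono h.1 h.2) (by omega) (by omega) (by omega) (by omega)
      (by simp)
  · exact gainv_one ih hW hs h3 (hg.mono h5.1 h5.2) (by omega) (by omega) (by omega) (by omega)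
      (by simp)
  · obtain ⟨a, b, e, k5, k6, k1, -, -, hd⟩ := gainv_sub (k := 3) hW hs (hg.mono h6.1 h6.2)
      (by omega) (by omega) (by omega) le_rfl le_rfl
    have k2 := gainv_ear ih e h3 hd
    have k3 := e.hi_two hs k5.le k6.le
    have k4 := e.new_card
    unfold PB
    omega
  · exact pb_zero ih hW hs h3 hr

theorem pb_real {H W : Finset (Finset V)} {c : ℕ} (ih : IHV W c) (hW : CC W) (hs : W ⊆ H)
    (h5 : U5 H) (h3 : ∀ v, dg H v ≤ 3) {x y : Finset V} (hx : x ∈ H) (hy : y ∈ H)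
    (h : NJ W x y) (h1 : 1 ≤ dd W x) (h2 : 1 ≤ dd W y) (hc : (x ∩ y).Nonempty) :
    27 * tau W + tt W (dg H) + 11 ≤ 8 * W.card + 3 * (cov W).card +
      3 * ((x ∪ y) \ cov W).card + hi H (insert x (insert y W)) + c := by
  have e := ear_of_nj hW (h5 x hx) (h5 y hy) h h1 h2 hc
  have k1 : insert x (insert y W) ⊆ H := insert_subset hx (insert_subset hy hs)
  have k2 := gainv_ear ih e h3 fun v _ => dg_mono k1 v
  have k3 : hi (insert x (insert y W)) (insert x (insert y W)) ≤ hi H (insert x (insert y W)) :=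
    hi_mono k1 Subset.rfl
  omega

end Pool.Agent.Work.MP_d266e7_co.C5.P24
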