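import Pool.Agent.Work.MP_d266e7_co.P24.Three

/-!
The step at a vertex `t` of degree three, as in `C5.gb_step`. `a = |(H \ star H t) \ un F|`,
`|cov H \ cov (un F)| = s + 1`, `r = |F| ≤ a + 2` (`nl_all`, `step_card`).
`step0`: sum `pb_zero` over the pieces (`room`), `Fam.card_eq`, `Fam.cov_eq`, `Fam.tt_eq`,
`Fam.tt_out` (the filter avoids `t`, so `2 tt (H \ un F) ≤ s`), `hi_sum`.
`step1`: from `step0` unless `r = a + 2` and `(a, s)` is `(0,0)`, `(0,1)` (`side2_of`,
`two_of_side2`, `Two.gain`) or `(1,0)` (`exists_enum`, `side3_mk`, `three_gain`).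
-/

namespace Pool.Agent.Work.MP_d266e7_co.C5.P24

open Finset

variable {V : Type} [DecidableEq V]

theorem step_sum {F : Finset (Finset (Finset V))} {H : Finset (Finset V)}
    {c : Finset (Finset V) → ℕ} (h : ∀ W ∈ F, PB H W (c W) 0) :
    27 * ∑ W ∈ F, tau W + ∑ W ∈ F, tt W (dg H) ≤
      8 * ∑ W ∈ F, W.card + 3 * ∑ W ∈ F, (cov W).card + ∑ W ∈ F, hi H W + ∑ W ∈ F, c W := by
  induction F using Finset.induction_on with
  | empty => simp
  | insert W F hW ih =>
    have h1 := ih fun Z hZ => h Z (mem_insert_of_mem hZ)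
    have h2 := h W (mem_insert_self _ _)
    unfold PB at h2
    simp only [sum_insert hW]
    omega

theorem step_tt {H : Finset (Finset V)} {t : V} (ht : dg H t = 3)
    {F : Finset (Finset (Finset V))} (hF : Fam (H \ star H t) F) :
    2 * tt (H \ un F) (dg H) + 1 ≤ (cov H \ cov (un F)).card := by
  have c5 := (hF.mono sdiff_subset Subset.rfl).tt_out
  have hto := step_out (by omega : 1 ≤ dg H t) hF
  have c6 : ((cov H \ cov (un F)).filter (fun v => dg H v ≤ 1)).card <
      (cov H \ cov (un F)).card :=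
    card_lt_card ⟨filter_subset _ _, fun c => by
      have := (mem_filter.1 (c hto)).2
      omega⟩
  omega

theorem step0 {H : Finset (Finset V)} (h : CC H) (h3 : ∀ v, dg H v ≤ 3) {t : V}
    (ht : dg H t = 3) {F : Finset (Finset (Finset V))} (hF : Fam (H \ star H t) F)
    (hτ : ∑ W ∈ F, tau W + 1 = tau H) {c : Finset (Finset V) → ℕ} (ih : ∀ W ∈ F, IHV W (c W)) :
    2 * (27 * tau H + tt H (dg H)) + 16 * ((H \ star H t) \ un F).card +
        5 * (cov H \ cov (un F)).card ≤
      2 * (8 * H.card + 3 * (cov H).card + hi H H + ∑ W ∈ F, c W) + 5 := by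
  have hF' : Fam H F := hF.mono sdiff_subset Subset.rfl
  have c1 := step_card hF
  have c2 := hF'.card_eq
  have c3 := hF'.cov_eq
  have c4 := hF'.tt_eq (dg H)
  have c5 := step_tt ht hF
  have c6 := hi_sum (H := H) hF'
  have c7 : ∀ W ∈ F, PB H W (c W) 0 := fun W hW => by
    refine pb_zero (ih W hW) (hF.cc W hW) (hF'.sub W hW) h3
      (room h.conn (hF'.sub W hW) (hF.cc W hW).ne fun e => ?_)
    have a1 := single_le_sum (f := fun Z : Finset (Finset V) => Z.card)
      (fun _ _ => Nat.zero_le _) hW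
    have a2 : W.card = H.card := by rw [e]
    omega
  have c8 := step_sum c7
  omega

theorem step1 [Infinite V] {H : Finset (Finset V)} (h : CC H) (h3 : ∀ v, dg H v ≤ 3) {t : V}
    (ht : dg H t = 3) {F : Finset (Finset (Finset V))} (hF : Fam (H \ star H t) F)
    (hτ : ∑ W ∈ F, tau W + 1 = tau H) {c : Finset (Finset V) → ℕ} (ih : ∀ W ∈ F, IHV W (c W)) :
    27 * tau H + tt H (dg H) + 5 * F.card ≤
      8 * H.card + 3 * (cov H).card + hi H H + ∑ W ∈ F, c W + 5 := by
  have hF' : Fam H F := hF.mono sdiff_subset Subset.rfl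
  have c0 := step0 h h3 ht hF hτ ih
  have c1 := step_card hF
  have c2 := hF'.card_eq
  have c3 := hF'.cov_eq
  have c4 := hF'.tt_eq (dg H)
  have c5 := step_tt ht hF
  have c7 : F.card + 1 ≤ (H \ un F).card := by
    obtain ⟨x, hx⟩ := card_pos.1 (show 0 < (H \ un F).card by omega)
    exact nl_all h hF' ⟨x, mem_sdiff.1 hx⟩
  by_contra hcon
  have hcase : (F.card = 2 ∧ (H \ un F).card = 3 ∧ (cov H \ cov (un F)).card ≤ 2) ∨
      (F.card = 3 ∧ (H \ un F).card = 4 ∧ (cov H \ cov (un F)).card = 1) := by omega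
  rcases hcase with ⟨f1, f2, f3⟩ | ⟨f1, f2, f3⟩
  · obtain ⟨W1, W2, hne, hFe⟩ := card_eq_two.1 f1
    have m1 : W1 ∈ F := hFe ▸ mem_insert_self _ _
    have m2 : W2 ∈ F := hFe ▸ mem_insert_of_mem (mem_singleton_self _)
    have hs : ∀ f : Finset (Finset V) → ℕ, ∑ W ∈ F, f W = f W1 + f W2 := fun f => by
      rw [hFe, sum_pair hne]
    obtain ⟨q, hq, hq'⟩ := side2_of h hF' hFe hne f2 (by rw [hs] at hτ; omega)
    have e : cov (un F) = cov W1 ∪ cov W2 := by
      rw [faml_cov, hFe, biUnion_insert, singleton_biUnion]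
    have a1 := (two_of_side2 hq h3).gain (Z := H) (ih W1 m1) (ih W2 m2) (by rw [← e]; omega)
      hq.s1 hq.s2 hq.qmem
    rw [← e] at a1
    rw [hs] at hτ c2 c3 c4 hcon
    omega
  · obtain ⟨W, w1, w2, w3⟩ := exists_enum f1
    obtain ⟨q, q1, q2, q3⟩ := exists_enum f2
    have hs := sum_three w1 w2 w3
    have h33 := side3_mk h hF' w1 w2 w3 q1 q2 q3 (by rw [hs] at hτ; omega)
    have a1 := three_gain h33 h3 (c := fun i => c (W i)) (fun i => ih _ (w2 i)) f3 fun x v hv => by
      rw [mem_sdiff] at hv ⊢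
      refine ⟨mem_cov.2 ⟨_, h33.qmem x, hv.1⟩, fun hc => hv.2 ?_⟩
      rw [faml_cov, mem_biUnion] at hc
      obtain ⟨Z, hZ, hvZ⟩ := hc
      obtain ⟨i, rfl⟩ := w3 Z hZ
      simp only [mem_union]
      rcases sides_three 0 1 2 i (by decide) (by decide) (by decide) with rfl | rfl | rfl
      · exact Or.inl (Or.inl hvZ)
      · exact Or.inl (Or.inr hvZ)
      · exact Or.inr hvZ
    rw [hs] at hτ c2 c3 c4 hcon
    omega

end Pool.Agent.Work.MP_d266e7_co.C5.P24
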