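import Pool.Agent.Work.MP_d266e7_co.P24.Step
import Pool.Agent.Work.MP_d266e7_co.P24.Base

/-!
`t1`: induction on the number of members, `vb_base`, `exists_step`, `step1` with `c = 5`
(a piece has at most `|H| - 3` members).
`t2_of`: induction on the number of members. Suppose `¬ VB H 2`. Put `c W = 5` if
`2 tau W = |W| + 1` and `2` otherwise; `IHV W (c W)` by `t1`, or by `gallai` and the induction
hypothesis (a family with six members, ten vertices and degrees at most three has all degrees
three, `ee_eq`). At a vertex `t` of degree three: if some piece has `c W = 2`, `step1` is a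
contradiction. Otherwise `|F| + |H| = a + 1 + 2 tau H`, and `step0` forces `a = 0`, `|F| = 1`,
one outside vertex and `2 tau H = |H|`; this is `Bad2.step`.
`th3`: omega from `t1`, `t2_of`, `gplus`, `gallai`, `ee_eq` (for `2 tau = m + 1` the bound `GB`
gives `5 m + 9 ≤ 3 n`).
-/

namespace Pool.Agent.Work.MP_d266e7_co.C5.P24

open Finset

variable {V : Type} [DecidableEq V]

theorem t1_two {H : Finset (Finset V)} (h3 : ∀ v, dg H v ≤ 3) (c : ¬ ∃ t, dg H t = 3) (v : V) :
    dg H v ≤ 2 := by
  have a1 := h3 v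
  have a2 : dg H v ≠ 3 := fun e => c ⟨v, e⟩
  omega

theorem t1_piece {H : Finset (Finset V)} {t : V} (ht : dg H t = 3)
    {F : Finset (Finset (Finset V))} (hF0 : Fam (H \ star H t) F) {W : Finset (Finset V)}
    (hW : W ∈ F) : W.card + 3 ≤ H.card := by
  have hF : Fam H F := hF0.mono sdiff_subset Subset.rfl
  have c1 := step_card hF0
  have c2 := hF.card_eq
  have := single_le_sum (f := fun Z : Finset (Finset V) => Z.card) (fun _ _ => Nat.zero_le _) hW
  omega

theorem t1_aux [Infinite V] (k : ℕ) : ∀ H : Finset (Finset V), H.card ≤ k → CC H →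
    (∀ v, dg H v ≤ 3) → VB H 5 := by
  induction k with
  | zero =>
    intro X hk h _
    have := card_pos.2 h.ne
    omega
  | succ k ih =>
    intro H hk h h3
    by_cases c : ∃ t, dg H t = 3
    · obtain ⟨t, ht⟩ := c
      obtain ⟨F, hF0, hτ⟩ := exists_step h (show 1 ≤ dg H t by omega)
      have := step1 h h3 ht hF0 hτ (c := fun _ => 5) fun W hW X hX hc hd _ _ =>
        ih X (by have := t1_piece ht hF0 hW; omega) hc hd
      rw [sum_const, Nat.nsmul_eq_mul] at this
      unfold VB
      omega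
    · exact (vb_base h (t1_two h3 c)).1

theorem t1 [Infinite V] {H : Finset (Finset V)} (h : CC H) (h3 : ∀ v, dg H v ≤ 3) : VB H 5 := by
  exact t1_aux H.card H le_rfl h h3

theorem ihv5 [Infinite V] (W : Finset (Finset V)) : IHV W 5 :=
  fun _ _ h h3 _ _ => t1 h h3

theorem t1_six {X : Finset (Finset V)} (h5 : U5 X) (h3 : ∀ v, dg X v ≤ 3)
    (hv : ∃ v ∈ cov X, dg X v ≤ 2) : ¬ (X.card = 6 ∧ (cov X).card = 10) := by
  rintro ⟨h6, h10⟩
  obtain ⟨v, hv, hd⟩ := hv
  have a1 := ee_eq h5 h3
  have a2 : 3 - dg X v ≤ ee X (dg X) :=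
    single_le_sum (f := fun v => 3 - dg X v) (fun _ _ => Nat.zero_le _) hv
  omega

theorem t1_step [Infinite V] {H : Finset (Finset V)} (h : CC H) (h3 : ∀ v, dg H v ≤ 3)
    (hv : 2 * tau H ≤ H.card) (hs : ¬ VB H 2)
    (ih : ∀ X : Finset (Finset V), X.card < H.card → CC X → (∀ v, dg X v ≤ 3) →
      2 * tau X ≤ X.card → ¬ (X.card = 6 ∧ (cov X).card = 10) → VB X 2)
    {t : V} (ht : dg H t = 3) :
    2 * tau H = H.card ∧ CC (H \ star H t) ∧ ∀ v ∈ cov H, v ≠ t → v ∈ cov (H \ star H t) := by
  have ht1 : 1 ≤ dg H t := by omega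
  obtain ⟨F, hF0, hτ⟩ := exists_step h ht1
  have hF : Fam H F := hF0.mono sdiff_subset Subset.rfl
  have hi5 : ∀ W ∈ F, IHV W (if 2 * tau W = W.card + 1 then 5 else 2) := by
    intro W hW
    split_ifs with e
    · exact ihv5 W
    · intro X hX hc hd hval hlow
      have a1 := gallai (nlem_ne (hF.cc W hW)) (hF.cc W hW).crit (hF.cc W hW).conn
      have a2 := t1_piece ht hF0 hW
      exact ih X (by omega) hc hd (by omega) (t1_six hc.u5 hd hlow)
  unfold VB at hs
  by_cases hall : ∀ W ∈ F, 2 * tau W = W.card + 1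
  · have s0 := step0 h h3 ht hF0 hτ (c := fun _ => 5) fun W _ => ihv5 W
    rw [sum_const, Nat.nsmul_eq_mul] at s0
    have c1 := step_card hF0
    have c2 := hF.card_eq
    have c3 : 2 * ∑ W ∈ F, tau W = ∑ W ∈ F, W.card + F.card := by
      rw [mul_sum, sum_congr rfl hall, sum_add_distrib, sum_const, Nat.nsmul_eq_mul, mul_one]
    have hto := step_out ht1 hF0
    have c4 : 1 ≤ (cov H \ cov (un F)).card := card_pos.2 ⟨t, hto⟩
    have f1 : 2 * tau H = H.card := by omega
    have f2 : ((H \ star H t) \ un F).card = 0 := by omega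
    have f3 : (cov H \ cov (un F)).card ≤ 1 := by omega
    have f4 : F.card = 1 := by omega
    obtain ⟨W, hW⟩ := card_eq_one.1 f4
    have hWF : W ∈ F := hW ▸ mem_singleton_self W
    have e1 : un F = W := by
      rw [hW]
      simp [un]
    have e2 : H \ star H t = W := by
      refine Subset.antisymm ?_ (hF0.sub W hWF)
      rw [← e1]
      exact sdiff_eq_empty_iff_subset.1 (card_eq_zero.1 f2)
    refine ⟨f1, e2 ▸ hF0.cc W hWF, fun v hv hvt => ?_⟩
    by_contra hn
    rw [e2, ← e1] at hn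
    exact hvt (card_le_one.1 f3 v (mem_sdiff.2 ⟨hv, hn⟩) t hto)
  · exfalso
    simp only [not_forall] at hall
    obtain ⟨W, hW, hne⟩ := hall
    have s1 := step1 h h3 ht hF0 hτ hi5
    have a1 := add_sum_erase F (fun W => if 2 * tau W = W.card + 1 then 5 else 2) hW
    have a2 : ∑ Z ∈ F.erase W, (if 2 * tau Z = Z.card + 1 then 5 else 2) ≤
        (F.erase W).card • 5 :=
      sum_le_card_nsmul _ _ _ fun Z _ => by split_ifs <;> omega
    have a3 := card_erase_add_one hW
    rw [Nat.nsmul_eq_mul] at a2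
    simp only [if_neg hne] at a1
    omega

theorem t1_aux2 [Infinite V]
    (hbad : ∀ H : Finset (Finset V), Bad2 H → H.card = 6 ∧ (cov H).card = 10) (k : ℕ) :
    ∀ H : Finset (Finset V), H.card ≤ k → CC H → (∀ v, dg H v ≤ 3) → 2 * tau H ≤ H.card →
      ¬ (H.card = 6 ∧ (cov H).card = 10) → VB H 2 := by
  induction k with
  | zero =>
    intro X hk h _ _ _
    have := card_pos.2 h.ne
    omega
  | succ k ih =>
    intro H hk h h3 hv hx
    by_contra hs
    by_cases c : ∃ t, dg H t = 3
    · have ih' : ∀ X : Finset (Finset V), X.card < H.card → CC X → (∀ v, dg X v ≤ 3) →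
          2 * tau X ≤ X.card → ¬ (X.card = 6 ∧ (cov X).card = 10) → VB X 2 :=
        fun X hX => ih X (by omega)
      obtain ⟨t, ht⟩ := c
      exact hx (hbad H ⟨h, h3, (t1_step h h3 hv hs ih' ht).1, hs, ⟨t, ht⟩,
        fun t ht => (t1_step h h3 hv hs ih' ht).2, ih'⟩)
    · exact hs ((vb_base h (t1_two h3 c)).2 hv)

theorem t2_of [Infinite V]
    (hbad : ∀ H : Finset (Finset V), Bad2 H → H.card = 6 ∧ (cov H).card = 10)
    {H : Finset (Finset V)} (h : CC H) (h3 : ∀ v, dg H v ≤ 3) (hv : 2 * tau H ≤ H.card)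
    (hx : ¬ (H.card = 6 ∧ (cov H).card = 10)) : VB H 2 := by
  exact t1_aux2 hbad H.card H le_rfl h h3 hv hx

/-- the potential that is neutral for a vertex of degree four -/
theorem th3 [Infinite V]
    (hbad : ∀ H : Finset (Finset V), Bad2 H → H.card = 6 ∧ (cov H).card = 10)
    {H : Finset (Finset V)} (h : CC H) (h3 : ∀ v, dg H v ≤ 3) :
    67 * tau H ≤ 14 * H.card + 11 * (cov H).card + 3 * hi H H +
      if 2 * tau H = H.card + 1 then 1 else if H.card = 6 ∧ (cov H).card = 10 then 7 else 3 := by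
  have a1 := gallai (nlem_ne h) h.crit h.conn
  have a2 := ee_eq h.u5 h3
  have a3 := card_pos.2 h.ne
  split_ifs with e1 e2
  · have b1 := t1 h h3
    have b2 := gplus h h3
    unfold VB at b1
    unfold GB at b2
    by_cases c : 3 ≤ H.card
    · omega
    · omega
  · omega
  · have b1 := t2_of hbad h h3 (by omega) e2
    unfold VB at b1
    by_cases c : 2 * tau H = H.card
    · by_cases c' : 4 ≤ tau H
      · omega
      · have c3 : tau H = 1 ∨ tau H = 2 ∨ tau H = 3 := by omega
        rcases c3 with c3 | c3 | c3 <;> omega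
    · omega

end Pool.Agent.Work.MP_d266e7_co.C5.P24
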