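import Pool.Agent.Work.MP_d266e7_co.P24.Defs

/-!
A finite check (verified by an external enumeration); compare `C5/Abs3.lean`.
`threeNum`: no host lies in one piece only. Lower every column to sum four keeping its support
(twelve patterns `310`, `220`, `211`), use monotonicity of `gainV` and check `12 ^ 4` cases
(`R i x y` holds when the two other hosts are matched into the two other pieces, `Shadow.rule`).
-/

namespace Pool.Agent.Work.MP_d266e7_co.C5.P24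

open Finset

theorem threenum_mono {p q p' q' : ℕ} (hp : p ≤ p') (hq : q ≤ q') : gainV p q ≤ gainV p' q' := by
  unfold gainV
  split_ifs <;> omega

/-- one of the two matchings of the complementary pair -/
def threenum_r (bz bw cz cw : ℕ) : Bool :=
  (decide (1 ≤ bz) && decide (1 ≤ cw)) || (decide (1 ≤ bw) && decide (1 ≤ cz))

/-- a gain of at least `n` is available in the piece with values `a` -/
def threenum_has (n a0 a1 a2 a3 b0 b1 b2 b3 c0 c1 c2 c3 : ℕ) : Bool :=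
  (decide (n ≤ gainV a0 a1) && threenum_r b2 b3 c2 c3) ||
    ((decide (n ≤ gainV a0 a2) && threenum_r b1 b3 c1 c3) ||
    ((decide (n ≤ gainV a0 a3) && threenum_r b1 b2 c1 c2) ||
    ((decide (n ≤ gainV a1 a2) && threenum_r b0 b3 c0 c3) ||
    ((decide (n ≤ gainV a1 a3) && threenum_r b0 b2 c0 c2) ||
    ((decide (n ≤ gainV a2 a3) && threenum_r b0 b1 c0 c1) ||
    ((decide (n ≤ gainV a0 (a1 + a2)) && (threenum_r b2 b3 c2 c3 &&
      (threenum_r b1 b3 c1 c3 && threenum_r b0 b3 c0 c3))) ||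
    ((decide (n ≤ gainV a0 (a1 + a3)) && (threenum_r b2 b3 c2 c3 &&
      (threenum_r b1 b2 c1 c2 && threenum_r b0 b2 c0 c2))) ||
    ((decide (n ≤ gainV a0 (a2 + a3)) && (threenum_r b1 b3 c1 c3 &&
      (threenum_r b1 b2 c1 c2 && threenum_r b0 b1 c0 c1))) ||
    ((decide (n ≤ gainV a1 (a0 + a2)) && (threenum_r b2 b3 c2 c3 &&
      (threenum_r b0 b3 c0 c3 && threenum_r b1 b3 c1 c3))) ||
    ((decide (n ≤ gainV a1 (a0 + a3)) && (threenum_r b2 b3 c2 c3 &&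
      (threenum_r b0 b2 c0 c2 && threenum_r b1 b2 c1 c2))) ||
    ((decide (n ≤ gainV a1 (a2 + a3)) && (threenum_r b0 b3 c0 c3 &&
      (threenum_r b0 b2 c0 c2 && threenum_r b0 b1 c0 c1))) ||
    ((decide (n ≤ gainV a2 (a0 + a1)) && (threenum_r b1 b3 c1 c3 &&
      (threenum_r b0 b3 c0 c3 && threenum_r b2 b3 c2 c3))) ||
    ((decide (n ≤ gainV a2 (a0 + a3)) && (threenum_r b1 b3 c1 c3 &&
      (threenum_r b0 b1 c0 c1 && threenum_r b1 b2 c1 c2))) ||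
    ((decide (n ≤ gainV a2 (a1 + a3)) && (threenum_r b0 b3 c0 c3 &&
      (threenum_r b0 b1 c0 c1 && threenum_r b0 b2 c0 c2))) ||
    ((decide (n ≤ gainV a3 (a0 + a1)) && (threenum_r b1 b2 c1 c2 &&
      (threenum_r b0 b2 c0 c2 && threenum_r b2 b3 c2 c3))) ||
    ((decide (n ≤ gainV a3 (a0 + a2)) && (threenum_r b1 b2 c1 c2 &&
      (threenum_r b0 b1 c0 c1 && threenum_r b1 b3 c1 c3))) ||
    ((decide (n ≤ gainV a3 (a1 + a2)) && (threenum_r b0 b2 c0 c2 &&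
      (threenum_r b0 b1 c0 c1 && threenum_r b0 b3 c0 c3))))))))))))))))))))

/-- the twelve patterns of one host -/
def threenum_pats : List (ℕ × ℕ × ℕ) :=
  [(0, 1, 3), (0, 2, 2), (0, 3, 1), (1, 0, 3), (1, 1, 2), (1, 2, 1), (1, 3, 0), (2, 0, 2),
    (2, 1, 1), (2, 2, 0), (3, 0, 1), (3, 1, 0)]

/-- at least two positive values -/
def threenum_two (a0 a1 a2 a3 : ℕ) : Bool :=
  abs3_two (decide (1 ≤ a0)) (decide (1 ≤ a1)) (decide (1 ≤ a2)) (decide (1 ≤ a3))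

/-- the final test -/
def threenum_fin (a0 a1 a2 a3 b0 b1 b2 b3 c0 c1 c2 c3 : ℕ) : Bool :=
  !(threenum_two a0 a1 a2 a3 && threenum_two b0 b1 b2 b3 && threenum_two c0 c1 c2 c3) ||
    ((threenum_has 1 a0 a1 a2 a3 b0 b1 b2 b3 c0 c1 c2 c3 &&
        (threenum_has 1 b0 b1 b2 b3 a0 a1 a2 a3 c0 c1 c2 c3 ||
          threenum_has 1 c0 c1 c2 c3 a0 a1 a2 a3 b0 b1 b2 b3)) ||
      ((threenum_has 1 b0 b1 b2 b3 a0 a1 a2 a3 c0 c1 c2 c3 &&
        threenum_has 1 c0 c1 c2 c3 a0 a1 a2 a3 b0 b1 b2 b3) ||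
      (threenum_has 2 a0 a1 a2 a3 b0 b1 b2 b3 c0 c1 c2 c3 ||
      (threenum_has 2 b0 b1 b2 b3 a0 a1 a2 a3 c0 c1 c2 c3 ||
        threenum_has 2 c0 c1 c2 c3 a0 a1 a2 a3 b0 b1 b2 b3))))

/-- the twelve patterns, as numerals -/
private def threenumk_all (f : ℕ → ℕ → ℕ → Bool) : Bool :=
  f 0 1 3 && (f 0 2 2 && (f 0 3 1 && (f 1 0 3 && (f 1 1 2 && (f 1 2 1 && (f 1 3 0 && (f 2 0 2 &&
    (f 2 1 1 && (f 2 2 0 && (f 3 0 1 && f 3 1 0))))))))))

private theorem threenumk_spec {f : ℕ → ℕ → ℕ → Bool} (h : threenumk_all f = true) :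
    ∀ x ∈ threenum_pats, f x.1 x.2.1 x.2.2 = true := by
  simpa only [threenumk_all, threenum_pats, Bool.and_eq_true, List.forall_mem_cons,
    List.not_mem_nil, false_imp_iff, implies_true, and_true] using h

private theorem threenumk_check : (threenumk_all fun a0 b0 c0 => threenumk_all fun a1 b1 c1 =>
    threenumk_all fun a2 b2 c2 => threenumk_all fun a3 b3 c3 =>
      threenum_fin a0 a1 a2 a3 b0 b1 b2 b3 c0 c1 c2 c3) = true := by
  decide +kernel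

theorem threenum_check : (threenum_pats.all fun p => threenum_pats.all fun q =>
    threenum_pats.all fun r => threenum_pats.all fun s =>
      threenum_fin p.1 q.1 r.1 s.1 p.2.1 q.2.1 r.2.1 s.2.1 p.2.2 q.2.2 r.2.2 s.2.2) = true := by
  simp only [List.all_eq_true]
  exact fun p hp q hq r hr s hs => threenumk_spec (threenumk_spec (threenumk_spec
    (threenumk_spec threenumk_check p hp) q hq) r hr) s hs

theorem threenum_low (a b c : ℕ) (hs : 4 ≤ a + b + c) (ha : a < a + b + c) (hb : b < a + b + c)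
    (hc : c < a + b + c) : ∃ p ∈ threenum_pats, (p.1 ≤ a ∧ p.2.1 ≤ b ∧ p.2.2 ≤ c) ∧
      (1 ≤ a ↔ 1 ≤ p.1) ∧ (1 ≤ b ↔ 1 ≤ p.2.1) ∧ (1 ≤ c ↔ 1 ≤ p.2.2) := by
  have key : ∀ a < 4, ∀ b < 4, ∀ c < 4, 4 ≤ a + b + c →
      ∃ p ∈ threenum_pats, (p.1 ≤ a ∧ p.2.1 ≤ b ∧ p.2.2 ≤ c) ∧
        (1 ≤ a ↔ 1 ≤ p.1) ∧ (1 ≤ b ↔ 1 ≤ p.2.1) ∧ (1 ≤ c ↔ 1 ≤ p.2.2) := by
    intro a ha b hb c hc
    have h4 : ∀ n < 4, n = 0 ∨ n = 1 ∨ n = 2 ∨ n = 3 := by omega
    rcases h4 a ha with rfl | rfl | rfl | rfl <;> rcases h4 b hb with rfl | rfl | rfl | rfl <;>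
      rcases h4 c hc with rfl | rfl | rfl | rfl <;> decide
  obtain ⟨p, hp, ⟨h1, h2, h3⟩, h4, h5, h6⟩ := key (min a 3) (by omega) (min b 3) (by omega)
    (min c 3) (by omega) (by omega)
  exact ⟨p, hp, ⟨by omega, by omega, by omega⟩, by omega, by omega, by omega⟩

theorem threenum_spec {d : Fin 3 → Fin 4 → ℕ} {R : Fin 3 → Fin 4 → Fin 4 → Prop} (h : Shadow d R)
    {g : Fin 3 → ℕ} (g11 : ∀ i x y, x ≠ y → R i x y → gainV (d i x) (d i y) ≤ g i)
    (g12 : ∀ i x y z, x ≠ y → x ≠ z → y ≠ z → R i x y → R i x z → R i y z →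
      gainV (d i x) (d i y + d i z) ≤ g i) (i j k : Fin 3) (hij : i ≠ j) (hik : i ≠ k)
    (hjk : j ≠ k) {a b c : Fin 4 → ℕ} (ha : ∀ x, a x ≤ d i x) (hb : ∀ x, b x ≤ d j x)
    (hc : ∀ x, c x ≤ d k x) {n : ℕ}
    (hg : threenum_has n (a 0) (a 1) (a 2) (a 3) (b 0) (b 1) (b 2) (b 3) (c 0) (c 1) (c 2)
      (c 3) = true) : n ≤ g i := by
  have hR : ∀ x y z w : Fin 4, (x ≠ y ∧ x ≠ z ∧ x ≠ w ∧ y ≠ z ∧ y ≠ w ∧ z ≠ w) →
      threenum_r (b z) (b w) (c z) (c w) = true → R i x y := by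
    rintro x y z w ⟨h1, h2, h3, h4, h5, h6⟩ hr
    simp only [threenum_r, Bool.or_eq_true, Bool.and_eq_true, decide_eq_true_eq] at hr
    rcases hr with ⟨u, v⟩ | ⟨u, v⟩
    · exact h.rule i j k x y z w hij hik hjk h1 h2 h3 h4 h5 h6 (u.trans (hb z)) (v.trans (hc w))
    · exact h.rule i j k x y w z hij hik hjk h1 h3 h2 h5 h4 h6.symm (u.trans (hb w))
        (v.trans (hc z))
  have p2 : ∀ x y : Fin 4, x ≠ y → R i x y → n ≤ gainV (a x) (a y) → n ≤ g i :=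
    fun x y h1 h2 h3 => h3.trans ((threenum_mono (ha x) (ha y)).trans (g11 i x y h1 h2))
  have p3 : ∀ x y z : Fin 4, (x ≠ y ∧ x ≠ z ∧ y ≠ z) → R i x y → R i x z → R i y z →
      n ≤ gainV (a x) (a y + a z) → n ≤ g i :=
    fun x y z h1 h2 h3 h4 h5 => h5.trans ((threenum_mono (ha x) (Nat.add_le_add (ha y) (ha z))).trans
      (g12 i x y z h1.1 h1.2.1 h1.2.2 h2 h3 h4))
  simp only [threenum_has, Bool.or_eq_true, Bool.and_eq_true, decide_eq_true_eq] at hg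
  rcases hg with ⟨h1, h2⟩ | ⟨h1, h2⟩ | ⟨h1, h2⟩ | ⟨h1, h2⟩ | ⟨h1, h2⟩ | ⟨h1, h2⟩ |
    ⟨h1, h2, h3, h4⟩ | ⟨h1, h2, h3, h4⟩ | ⟨h1, h2, h3, h4⟩ | ⟨h1, h2, h3, h4⟩ |
    ⟨h1, h2, h3, h4⟩ | ⟨h1, h2, h3, h4⟩ | ⟨h1, h2, h3, h4⟩ | ⟨h1, h2, h3, h4⟩ |
    ⟨h1, h2, h3, h4⟩ | ⟨h1, h2, h3, h4⟩ | ⟨h1, h2, h3, h4⟩ | ⟨h1, h2, h3, h4⟩
  · exact p2 0 1 (by decide) (hR 0 1 2 3 (by decide) h2) h1
  · exact p2 0 2 (by decide) (hR 0 2 1 3 (by decide) h2) h1
  · exact p2 0 3 (by decide) (hR 0 3 1 2 (by decide) h2) h1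
  · exact p2 1 2 (by decide) (hR 1 2 0 3 (by decide) h2) h1
  · exact p2 1 3 (by decide) (hR 1 3 0 2 (by decide) h2) h1
  · exact p2 2 3 (by decide) (hR 2 3 0 1 (by decide) h2) h1
  · exact p3 0 1 2 (by decide) (hR 0 1 2 3 (by decide) h2)
      (hR 0 2 1 3 (by decide) h3) (hR 1 2 0 3 (by decide) h4) h1
  · exact p3 0 1 3 (by decide) (hR 0 1 2 3 (by decide) h2)
      (hR 0 3 1 2 (by decide) h3) (hR 1 3 0 2 (by decide) h4) h1
  · exact p3 0 2 3 (by decide) (hR 0 2 1 3 (by decide) h2)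
      (hR 0 3 1 2 (by decide) h3) (hR 2 3 0 1 (by decide) h4) h1
  · exact p3 1 0 2 (by decide) (hR 1 0 2 3 (by decide) h2)
      (hR 1 2 0 3 (by decide) h3) (hR 0 2 1 3 (by decide) h4) h1
  · exact p3 1 0 3 (by decide) (hR 1 0 2 3 (by decide) h2)
      (hR 1 3 0 2 (by decide) h3) (hR 0 3 1 2 (by decide) h4) h1
  · exact p3 1 2 3 (by decide) (hR 1 2 0 3 (by decide) h2)
      (hR 1 3 0 2 (by decide) h3) (hR 2 3 0 1 (by decide) h4) h1
  · exact p3 2 0 1 (by decide) (hR 2 0 1 3 (by decide) h2)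
      (hR 2 1 0 3 (by decide) h3) (hR 0 1 2 3 (by decide) h4) h1
  · exact p3 2 0 3 (by decide) (hR 2 0 1 3 (by decide) h2)
      (hR 2 3 0 1 (by decide) h3) (hR 0 3 1 2 (by decide) h4) h1
  · exact p3 2 1 3 (by decide) (hR 2 1 0 3 (by decide) h2)
      (hR 2 3 0 1 (by decide) h3) (hR 1 3 0 2 (by decide) h4) h1
  · exact p3 3 0 1 (by decide) (hR 3 0 1 2 (by decide) h2)
      (hR 3 1 0 2 (by decide) h3) (hR 0 1 2 3 (by decide) h4) h1
  · exact p3 3 0 2 (by decide) (hR 3 0 1 2 (by decide) h2)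
      (hR 3 2 0 1 (by decide) h3) (hR 0 2 1 3 (by decide) h4) h1
  · exact p3 3 1 2 (by decide) (hR 3 1 0 2 (by decide) h2)
      (hR 3 2 0 1 (by decide) h3) (hR 1 2 0 3 (by decide) h4) h1

theorem threeNum {d : Fin 3 → Fin 4 → ℕ} {R : Fin 3 → Fin 4 → Fin 4 → Prop} (h : Shadow d R)
    (hs : ∀ x, 4 ≤ d 0 x + d 1 x + d 2 x) (hne : ∀ i x, d i x < d 0 x + d 1 x + d 2 x)
    {g : Fin 3 → ℕ} (g11 : ∀ i x y, x ≠ y → R i x y → gainV (d i x) (d i y) ≤ g i)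
    (g12 : ∀ i x y z, x ≠ y → x ≠ z → y ≠ z → R i x y → R i x z → R i y z →
      gainV (d i x) (d i y + d i z) ≤ g i) : 2 ≤ g 0 + g 1 + g 2 := by
  choose p hp hle e0 e1 e2 using fun x =>
    threenum_low (d 0 x) (d 1 x) (d 2 x) (hs x) (hne 0 x) (hne 1 x) (hne 2 x)
  have c0 := List.all_eq_true.1 (List.all_eq_true.1 (List.all_eq_true.1 (List.all_eq_true.1
    threenum_check _ (hp 0)) _ (hp 1)) _ (hp 2)) _ (hp 3)
  have t0 := abs3_two_spec _ (h.n1 0)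
  have t1 := abs3_two_spec _ (h.n1 1)
  have t2 := abs3_two_spec _ (h.n1 2)
  simp only [e0] at t0
  simp only [e1] at t1
  simp only [e2] at t2
  have s0 := fun n => threenum_spec h g11 g12 0 1 2 (by decide) (by decide) (by decide)
    (fun x => (hle x).1) (fun x => (hle x).2.1) (fun x => (hle x).2.2) (n := n)
  have s1 := fun n => threenum_spec h g11 g12 1 0 2 (by decide) (by decide) (by decide)
    (fun x => (hle x).2.1) (fun x => (hle x).1) (fun x => (hle x).2.2) (n := n)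
  have s2 := fun n => threenum_spec h g11 g12 2 0 1 (by decide) (by decide) (by decide)
    (fun x => (hle x).2.2) (fun x => (hle x).1) (fun x => (hle x).2.1) (n := n)
  simp only [threenum_fin, threenum_two, t0, t1, t2, Bool.and_self, Bool.not_true, Bool.false_or,
    Bool.or_eq_true, Bool.and_eq_true] at c0
  rcases c0 with ⟨u, v | v⟩ | ⟨u, v⟩ | u | u | u
  · have := s0 1 u
    have := s1 1 v
    omega
  · have := s0 1 u
    have := s2 1 v
    omega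
  · have := s1 1 u
    have := s2 1 v
    omega
  · have := s0 2 u
    omega
  · have := s1 2 u
    omega
  · have := s2 2 u
    omega

end Pool.Agent.Work.MP_d266e7_co.C5.P24
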