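import Pool.Agent.Work.MP_d266e7_co.P24.Two
import Pool.Agent.Work.MP_d266e7_co.P24.ThreeNum

/-!
`three_gain`: if no host lies in one piece only use `threeNum` (`Side3.shadow`). Otherwise host
`x` has at least four vertices in piece `i` and none in the pieces `j`, `k`. The two
neighbourhood bounds of `Shadow` match any two of the other hosts into `j`, `k`, so `x` is `NJ`
with every other host on `W i`. Let `U` be the vertices of the other three hosts in `cov (W i)`.
If `2 ≤ |U|` then `sgad1N` gives the gain `gainV 4 2 = 3`. Otherwise `Two` holds for `W j`,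
`W k`, the other three hosts and `O ∪ U` (`Shadow.rule` with `x` matched into `i`), and
`Two.gain` gives `8 - 6`.
-/

namespace Pool.Agent.Work.MP_d266e7_co.C5.P24

open Finset

variable {V : Type} [DecidableEq V]

theorem three_ijk : ∀ i : Fin 3, ∃ j k, i ≠ j ∧ i ≠ k ∧ j ≠ k := by decide

theorem three_zw : ∀ x y : Fin 4, x ≠ y → ∃ z w, x ≠ z ∧ x ≠ w ∧ y ≠ z ∧ y ≠ w ∧ z ≠ w := by
  decide

theorem three_match {d : Fin 3 → Fin 4 → ℕ} {R : Fin 3 → Fin 4 → Fin 4 → Prop} (h : Shadow d R)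
    {i j k : Fin 3} (hij : i ≠ j) (hik : i ≠ k) (hjk : j ≠ k) {x y : Fin 4} (hj : d j x = 0)
    (hk : d k x = 0) (hxy : x ≠ y) : R i x y := by
  obtain ⟨z, w, hxz, hxw, hyz, hyw, hzw⟩ := three_zw x y hxy
  have a1 : ∀ l, d l x = 0 → 1 ≤ d l z ∨ 1 ≤ d l w := fun l hl => by
    by_contra hn
    have h1 : (univ.filter fun v => 1 ≤ d l v) ⊆ {y} := fun v hv => by
      have h2 := (mem_filter.1 hv).2
      rcases sides_four x y z w v hxy hxz hxw hyz hyw hzw with rfl | rfl | rfl | rfl
      · omega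
      · exact mem_singleton_self _
      · omega
      · omega
    have h2 := (h.n1 l).trans (card_le_card h1)
    rw [card_singleton] at h2
    omega
  have a2 : ∀ z w, x ≠ z → x ≠ w → y ≠ z → y ≠ w → z ≠ w → 1 ≤ d j z ∨ 1 ≤ d k z :=
    fun z w hxz hxw hyz hyw hzw => by
      by_contra hn
      have h1 : (univ.filter fun v => 1 ≤ d j v ∨ 1 ≤ d k v) ⊆ {y, w} := fun v hv => by
        have h2 := (mem_filter.1 hv).2
        rcases sides_four x y z w v hxy hxz hxw hyz hyw hzw with rfl | rfl | rfl | rfl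
        · omega
        · exact mem_insert_self _ _
        · omega
        · exact mem_insert_of_mem (mem_singleton_self _)
      have h2 := ((h.n2 j k hjk).trans (card_le_card h1)).trans card_le_two
      omega
  have b1 := a1 j hj
  have b2 := a1 k hk
  have b3 := a2 z w hxz hxw hyz hyw hzw
  have b4 := a2 w z hxw hxz hyw hyz hzw.symm
  have b5 : (1 ≤ d j z ∧ 1 ≤ d k w) ∨ (1 ≤ d j w ∧ 1 ≤ d k z) := by omega
  rcases b5 with b | b
  · exact h.rule i j k x y z w hij hik hjk hxy hxz hxw hyz hyw hzw b.1 b.2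
  · exact h.rule i j k x y w z hij hik hjk hxy hxw hxz hyw hyz hzw.symm b.1 b.2

theorem three_two {d : Fin 3 → Fin 4 → ℕ} {R : Fin 3 → Fin 4 → Fin 4 → Prop} (h : Shadow d R)
    {j : Fin 3} {x : Fin 4} (hj : d j x = 0) :
    ∃ a b : Fin 3, a ≠ b ∧ 1 ≤ d j (x.succAbove a) ∧ 1 ≤ d j (x.succAbove b) := by
  obtain ⟨y, hy, z, hz, hyz⟩ := one_lt_card.1 (h.n1 j)
  have h1 := (mem_filter.1 hy).2
  have h2 := (mem_filter.1 hz).2
  obtain ⟨a, rfl⟩ := Fin.exists_succAbove_eq (x := y) (y := x) (by rintro rfl; omega)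
  obtain ⟨b, rfl⟩ := Fin.exists_succAbove_eq (x := z) (y := x) (by rintro rfl; omega)
  exact ⟨a, b, fun e => hyz (by rw [e]), h1, h2⟩

section
variable {H : Finset (Finset V)} {W : Fin 3 → Finset (Finset V)} {q : Fin 4 → Finset V}

theorem three_room (h : Side3 H W q) (i : Fin 3) : ∃ v ∈ cov (W i), dg (W i) v < dg H v := by
  obtain ⟨y, hy, -⟩ := one_lt_card.1 (h.shadow.n1 i)
  exact room_of_dd (h.wsub i) (h.qmem y) (h.qout y i) (mem_filter.1 hy).2

theorem three_dis (h : Side3 H W q) {i j : Fin 3} (hij : i ≠ j) : W j ⊆ H \ W i := fun _ he =>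
  mem_sdiff.2 ⟨h.wsub j he, fun he' =>
    disjoint_left.1 ((h.sep i j hij).disjoint (h.wcc i).u5.ne) he' he⟩

theorem three_hi (h : Side3 H W q) {i j k : Fin 3} (hij : i ≠ j) (hik : i ≠ k) (hjk : j ≠ k) :
    hi H (W i) + (hi H (W j) + hi H (W k)) ≤ hi H H :=
  (Nat.add_le_add_left (hi_add ((h.sep j k hjk).disjoint (h.wcc j).u5.ne) (three_dis h hij)
    (three_dis h hik)) _).trans (hi_add disjoint_sdiff (h.wsub i) sdiff_subset)

theorem three_one [Infinite V] (h : Side3 H W q) (h3 : ∀ v, dg H v ≤ 3) {c : Fin 3 → ℕ}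
    (ih : ∀ i, IHV (W i) (c i)) {O : Finset V} (hO : O.card = 1)
    (out : ∀ x, q x \ (cov (W 0) ∪ cov (W 1) ∪ cov (W 2)) ⊆ O) {i j k : Fin 3} (hij : i ≠ j)
    (hik : i ≠ k) (hjk : j ≠ k) {x : Fin 4} (hx : 4 ≤ dd (W i) (q x)) (hj : dd (W j) (q x) = 0)
    (hk : dd (W k) (q x) = 0) :
    27 * (tau (W i) + (tau (W j) + tau (W k))) +
        (tt (W i) (dg H) + (tt (W j) (dg H) + tt (W k) (dg H))) + 2 ≤
      8 * ((W i).card + ((W j).card + (W k).card)) +
        3 * ((cov (W i)).card + ((cov (W j)).card + (cov (W k)).card)) + hi H H +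
        (c i + (c j + c k)) := by
  have sh := h.shadow
  have p0 := fun l => pb_zero (ih l) (h.wcc l) (h.wsub l) h3 (three_room h l)
  have hN : ∀ y ∈ univ.image fun a : Fin 3 => q (x.succAbove a),
      y ∈ H ∧ y ∉ W i ∧ NJ (W i) (q x) y := fun y hy => by
    obtain ⟨a, -, rfl⟩ := mem_image.1 hy
    exact ⟨h.qmem _, h.qout _ i, three_match sh hij hik hjk hj hk (x.succAbove_ne a).symm⟩
  have hg := sgad1N (h.wcc i) (h.wsub i) (h.qmem x) (h.qout x i) hN
  generalize hU : cov (univ.image fun a : Fin 3 => q (x.succAbove a)) ∩ cov (W i) = U at hg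
  rcases le_or_gt 2 U.card with h2 | h2
  · have p1 := pb_gain (ih i) (h.wcc i) (h.wsub i) h3 (three_room h i)
      (hg.mono (p' := 4) (q' := 2) hx (by omega))
    have e : gainV 4 2 = 3 := by decide
    have p2 := p0 j
    have p3 := p0 k
    have p4 := three_hi h hij hik hjk
    rw [e] at p1
    unfold PB at p1 p2 p3
    omega
  have hr : ∀ {a b : Fin 3}, a ≠ b → x.succAbove a ≠ x.succAbove b := fun hab e =>
    hab (Fin.succAbove_right_injective e)
  have ht : Two H (W j) (W k) (fun a => q (x.succAbove a)) (O ∪ U) := by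
    refine ⟨h.cc.u5, h3, h.wcc j, h.wcc k, h.wsub j, h.wsub k, h.sep j k hjk, fun a => h.qmem _,
      fun a => h.qout _ j, fun a => h.qout _ k, fun a v hv => ?_, fun a b e hab hae hbe he => ?_,
      fun a b e hab hae hbe he => ?_, three_two sh hj, three_two sh hk⟩
    · obtain ⟨h4, h5⟩ := mem_sdiff.1 hv
      by_cases h6 : v ∈ cov (W i)
      · refine mem_union_right _ ?_
        rw [← hU]
        exact mem_inter.2 ⟨mem_cov.2 ⟨_, mem_image_of_mem _ (mem_univ a), h4⟩, h6⟩
      · have h7 : ∀ l, v ∉ cov (W l) := fun l => by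
          rcases sides_three i j k l hij hik hjk with rfl | rfl | rfl
          exacts [h6, fun h8 => h5 (mem_union_left _ h8), fun h8 => h5 (mem_union_right _ h8)]
        refine mem_union_left _ (out _ (mem_sdiff.2 ⟨h4, ?_⟩))
        simp only [mem_union, h7, or_self, not_false_eq_true]
    · exact sh.rule j i k _ _ x _ hij.symm hjk hik (hr hab) (x.succAbove_ne a) (hr hae)
        (x.succAbove_ne b) (hr hbe) (x.succAbove_ne e).symm (le_trans (by omega) hx) he
    · exact sh.rule k i j _ _ x _ hik.symm hjk.symm hij (hr hab) (x.succAbove_ne a) (hr hae)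
        (x.succAbove_ne b) (hr hbe) (x.succAbove_ne e).symm (le_trans (by omega) hx) he
  have p1 := ht.gain (Z := H \ W i) (ih j) (ih k)
    (hO.ge.trans (card_le_card subset_union_left)) (three_dis h hij) (three_dis h hik)
    fun a => mem_sdiff.2 ⟨h.qmem _, h.qout _ i⟩
  have p2 := p0 i
  have p3 := card_union_le O U
  have p4 : hi H (W i) + hi H (H \ W i) ≤ hi H H := hi_add disjoint_sdiff (h.wsub i) sdiff_subset
  unfold PB at p2
  omega

end

theorem three_gain [Infinite V] {H : Finset (Finset V)} {W : Fin 3 → Finset (Finset V)}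
    {q : Fin 4 → Finset V} (h : Side3 H W q) (h3 : ∀ v, dg H v ≤ 3) {c : Fin 3 → ℕ}
    (ih : ∀ i, IHV (W i) (c i)) {O : Finset V} (hO : O.card = 1)
    (out : ∀ x, q x \ (cov (W 0) ∪ cov (W 1) ∪ cov (W 2)) ⊆ O) :
    27 * (tau (W 0) + tau (W 1) + tau (W 2)) +
        (tt (W 0) (dg H) + tt (W 1) (dg H) + tt (W 2) (dg H)) + 2 ≤
      8 * ((W 0).card + (W 1).card + (W 2).card) +
        3 * ((cov (W 0)).card + (cov (W 1)).card + (cov (W 2)).card) + hi H H +
        (c 0 + c 1 + c 2) := by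
  have hs : ∀ x, 4 ≤ dd (W 0) (q x) + dd (W 1) (q x) + dd (W 2) (q x) := fun x => by
    have h1 : q x ⊆ q x ∩ cov (W 0) ∪ q x ∩ cov (W 1) ∪ q x ∩ cov (W 2) ∪ O := fun v hv => by
      by_cases h2 : v ∈ cov (W 0) ∪ cov (W 1) ∪ cov (W 2)
      · refine mem_union_left _ ?_
        rw [← inter_union_distrib_left, ← inter_union_distrib_left]
        exact mem_inter.2 ⟨hv, h2⟩
      · exact mem_union_right _ (out x (mem_sdiff.2 ⟨hv, h2⟩))
    have h2 := (card_le_card h1).trans (card_union_le _ _)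
    have h4 := card_union_le (q x ∩ cov (W 0) ∪ q x ∩ cov (W 1)) (q x ∩ cov (W 2))
    have h5 := card_union_le (q x ∩ cov (W 0)) (q x ∩ cov (W 1))
    have h6 := h.cc.u5 _ (h.qmem x)
    unfold dd
    omega
  by_cases hne : ∀ i x, dd (W i) (q x) < dd (W 0) (q x) + dd (W 1) (q x) + dd (W 2) (q x)
  · have p0 := fun l => pb_zero (ih l) (h.wcc l) (h.wsub l) h3 (three_room h l)
    have pg : ∀ l p r, SGad H (W l) p r → gainV p r ≤ 8 * (W l).card + 3 * (cov (W l)).card +
        hi H (W l) + c l - (27 * tau (W l) + tt (W l) (dg H)) := fun l p r hg => by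
      have := pb_gain (ih l) (h.wcc l) (h.wsub l) h3 (three_room h l) hg
      unfold PB at this
      omega
    have p1 := threeNum h.shadow hs hne (g := fun l => 8 * (W l).card + 3 * (cov (W l)).card +
        hi H (W l) + c l - (27 * tau (W l) + tt (W l) (dg H)))
      (fun i x y _ a => pg i _ _
        (sgad11 (h.wsub i) (h.qmem x) (h.qmem y) (h.qout x i) (h.qout y i) a))
      fun i x y z _ _ _ a b e => pg i _ _ (sgad12 (h.wcc i) (h.wsub i) (h.qmem x) (h.qmem y)
        (h.qmem z) (h.qout x i) (h.qout y i) (h.qout z i) a b e)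
    have p2 := p0 0
    have p3 := p0 1
    have p4 := p0 2
    have p5 := three_hi h (i := 0) (j := 1) (k := 2) (by decide) (by decide) (by decide)
    unfold PB at p2 p3 p4
    omega
  simp only [not_forall, not_lt] at hne
  obtain ⟨i, x, hx⟩ := hne
  obtain ⟨j, k, hij, hik, hjk⟩ := three_ijk i
  have e0 := sides_sum (fun l => dd (W l) (q x)) hij hik hjk
  have e1 := hs x
  have p1 := three_one h h3 ih hO out hij hik hjk (x := x) (by omega) (by omega) (by omega)
  rwa [sides_sum (fun l => tau (W l)) hij hik hjk, sides_sum (fun l => tt (W l) (dg H)) hij hik hjk,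
    sides_sum (fun l => (W l).card) hij hik hjk, sides_sum (fun l => (cov (W l)).card) hij hik hjk,
    sides_sum c hij hik hjk] at p1

end Pool.Agent.Work.MP_d266e7_co.C5.P24
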