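import Pool.Agent.Work.MP_d266e7_co.P24.Defs

/-!
Counting traces and safe vertex families.
`hi_add`: two-element subfamilies of disjoint families are different.
-/

namespace Pool.Agent.Work.MP_d266e7_co.C5.P24

open Finset

variable {V : Type} [DecidableEq V]

theorem mem_sd {c w : Finset V} {v : V} : v ∈ sd c w ↔ (v ∈ c ∧ v ∉ w) ∨ (v ∉ c ∧ v ∈ w) := by
  simp only [sd, mem_sdiff, mem_union, mem_inter]
  tauto

theorem sd_comm (c w : Finset V) : sd c w = sd w c := by
  rw [sd, sd, union_comm, inter_comm]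

theorem sd_card {c w : Finset V} (hc : c.card = 5) (hw : w.card = 5) (h : (c ∩ w).card = 3) :
    (sd c w).card = 4 := by
  have h1 := card_union_add_card_inter c w
  rw [sd, card_sdiff_of_subset inter_subset_union]
  omega

theorem Tr.mono {H H' p : Finset (Finset V)} (h : Tr H p) (hs : H ⊆ H') : Tr H' p := by
  obtain ⟨c, hc, w, hw, h3, y, hy, h4⟩ := h
  exact ⟨c, hc, w, hw, h3, y, hs hy, h4⟩

theorem hi_mono {H H' X X' : Finset (Finset V)} (h1 : H ⊆ H') (h2 : X ⊆ X') :
    hi H X ≤ hi H' X' := by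
  refine card_le_card fun p hp => ?_
  obtain ⟨h3, h4⟩ := mem_filter.1 hp
  exact mem_filter.2 ⟨powersetCard_mono h2 h3, h4.mono h1⟩

theorem trace_disj (H : Finset (Finset V)) {X Y : Finset (Finset V)} (hd : Disjoint X Y) :
    Disjoint ((X.powersetCard 2).filter (Tr H)) ((Y.powersetCard 2).filter (Tr H)) := by
  refine disjoint_left.2 fun p hp hq => ?_
  obtain ⟨h1, h2⟩ := mem_powersetCard.1 (mem_filter.1 hp).1
  obtain ⟨h3, -⟩ := mem_powersetCard.1 (mem_filter.1 hq).1
  obtain ⟨e, he⟩ : p.Nonempty := card_pos.1 (by omega)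
  exact disjoint_left.1 hd (h1 he) (h3 he)

theorem hi_add {H X Y Z : Finset (Finset V)} (hd : Disjoint X Y) (h1 : X ⊆ Z) (h2 : Y ⊆ Z) :
    hi H X + hi H Y ≤ hi H Z := by
  unfold hi
  rw [← card_union_of_disjoint (trace_disj H hd)]
  exact card_le_card (union_subset (filter_subset_filter _ (powersetCard_mono h1))
    (filter_subset_filter _ (powersetCard_mono h2)))

theorem hi_sum {H K : Finset (Finset V)} {F : Finset (Finset (Finset V))} (h : Fam K F) :
    ∑ W ∈ F, hi H W ≤ hi H K := by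
  unfold hi
  rw [← card_biUnion fun W hW W' hW' hne => trace_disj H ((h.sep W hW W' hW' hne).disjoint
    fun e he => card_pos.1 (by rw [(h.cc W hW).u5 e he]; omega))]
  exact card_le_card (biUnion_subset.2 fun W hW =>
    filter_subset_filter _ (powersetCard_mono (h.sub W hW)))

/-- a trace among three different members is counted -/
theorem hi_pos {H X : Finset (Finset V)} {c w y : Finset V} (hc : c ∈ X) (hw : w ∈ X)
    (hcw : c ≠ w) (h3 : (c ∩ w).card = 3) (hy : y ∈ H) (h : sd c w ⊆ y) : 1 ≤ hi H X := by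
  refine card_pos.2 ⟨{c, w}, mem_filter.2 ⟨mem_powersetCard.2 ⟨?_, card_pair hcw⟩,
    c, mem_insert_self _ _, w, mem_insert_of_mem (mem_singleton_self _), h3, y, hy, h⟩⟩
  exact insert_subset hc (singleton_subset_iff.2 hw)

/-- a proper part of a connected family has a vertex with room -/
theorem room {H W : Finset (Finset V)} (hH : Conn H) (hs : W ⊆ H) (hne : W.Nonempty)
    (hWH : W ≠ H) : ∃ v ∈ cov W, dg W v < dg H v := by
  obtain ⟨u, hu, z, hz, hzW, v, h1, h2⟩ := hH W hs hne hWH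
  exact ⟨v, mem_cov.2 ⟨u, hu, h1⟩, dg_lt hs hz hzW h2⟩

theorem room_of_dd {H W : Finset (Finset V)} {x : Finset V} (hs : W ⊆ H) (hx : x ∈ H)
    (hxW : x ∉ W) (h : 1 ≤ dd W x) : ∃ v ∈ cov W, dg W v < dg H v := by
  obtain ⟨v, hv⟩ := card_pos.1 h
  exact ⟨v, (mem_inter.1 hv).2, dg_lt hs hx hxW (mem_inter.1 hv).1⟩

end Pool.Agent.Work.MP_d266e7_co.C5.P24
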