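import Pool.Agent.Work.MP_d266e7_co.P24.Defs

/-!
Finite checks (verified by an external enumeration).

`twoNum`: `a x`, `b x`, `o x` are the numbers of vertices of host `x` in piece 1, piece 2 and
outside; `u x y`, `v x y` the sizes of the unions of two hosts in the pieces; `K x y` says that
the hosts meet. For `3 ≤ s` there is nothing to do. If all `a x`, `b x` are positive only `f2`,
`g2` are needed. Otherwise say `b z = 0`; then `b x`, `b y` are positive, `a z ≥ 5 - s`,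
`u x y ≥ 1`: use `f3` at `z`, `g1` and `r2` for `x`, `y` (gain `3 - 3 u` for the sum), and for
`s = 2`, `a z = 3` also `r1` for `z` and a host with two vertices in piece 1 and two outside.
-/

namespace Pool.Agent.Work.MP_d266e7_co.C5.P24

open Finset

private theorem twonumk_fin : ∀ s : Fin 3, 1 ≤ s.val →
    ∀ a0 : Fin 5, 1 ≤ a0.val → ∀ b0 : Fin 5, 1 ≤ b0.val → 5 ≤ a0.val + b0.val + s.val →
    ∀ a1 : Fin 5, 1 ≤ a1.val → ∀ b1 : Fin 5, 1 ≤ b1.val → 5 ≤ a1.val + b1.val + s.val →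
    ∀ a2 : Fin 5, 1 ≤ a2.val → ∀ b2 : Fin 5, 1 ≤ b2.val → 5 ≤ a2.val + b2.val + s.val →
    8 ≤ max (gainV a0.val (a1.val + a2.val))
        (max (gainV a1.val (a0.val + a2.val)) (gainV a2.val (a0.val + a1.val))) +
      max (gainV b0.val (b1.val + b2.val))
        (max (gainV b1.val (b0.val + b2.val)) (gainV b2.val (b0.val + b1.val))) + 3 * s.val := by
  decide +kernel

theorem twonum_pos_fin : ∀ s : Fin 3, ∀ a0 a1 a2 b0 b1 b2 : Fin 5,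
    1 ≤ s.val → 1 ≤ a0.val → 1 ≤ a1.val → 1 ≤ a2.val → 1 ≤ b0.val → 1 ≤ b1.val → 1 ≤ b2.val →
    5 ≤ a0.val + b0.val + s.val → 5 ≤ a1.val + b1.val + s.val → 5 ≤ a2.val + b2.val + s.val →
    8 ≤ max (gainV a0.val (a1.val + a2.val))
        (max (gainV a1.val (a0.val + a2.val)) (gainV a2.val (a0.val + a1.val))) +
      max (gainV b0.val (b1.val + b2.val))
        (max (gainV b1.val (b0.val + b2.val)) (gainV b2.val (b0.val + b1.val))) + 3 * s.val :=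
  fun s a0 a1 a2 b0 b1 b2 hs p0 p1 p2 q0 q1 q2 l0 l1 l2 =>
    twonumk_fin s hs a0 p0 b0 q0 l0 a1 p1 b1 q1 l1 a2 p2 b2 q2 l2

theorem twonum_pos {a0 a1 a2 b0 b1 b2 s g1 g2 : ℕ} (hs : 1 ≤ s) (hs2 : s ≤ 2)
    (p0 : 1 ≤ a0) (p1 : 1 ≤ a1) (p2 : 1 ≤ a2) (q0 : 1 ≤ b0) (q1 : 1 ≤ b1) (q2 : 1 ≤ b2)
    (l0 : 5 ≤ a0 + b0 + s) (l1 : 5 ≤ a1 + b1 + s) (l2 : 5 ≤ a2 + b2 + s)
    (m0 : a0 + b0 ≤ 5) (m1 : a1 + b1 ≤ 5) (m2 : a2 + b2 ≤ 5)
    (e0 : gainV a0 (a1 + a2) ≤ g1) (e1 : gainV a1 (a0 + a2) ≤ g1) (e2 : gainV a2 (a0 + a1) ≤ g1)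
    (d0 : gainV b0 (b1 + b2) ≤ g2) (d1 : gainV b1 (b0 + b2) ≤ g2) (d2 : gainV b2 (b0 + b1) ≤ g2) :
    8 ≤ g1 + g2 + 3 * s := by
  have h := twonum_pos_fin ⟨s, by omega⟩ ⟨a0, by omega⟩ ⟨a1, by omega⟩ ⟨a2, by omega⟩
    ⟨b0, by omega⟩ ⟨b1, by omega⟩ ⟨b2, by omega⟩ hs p0 p1 p2 q0 q1 q2 l0 l1 l2
  have hA := max_le e0 (max_le e1 e2)
  have hB := max_le d0 (max_le d1 d2)
  dsimp only at h
  omega

theorem twonum_gain (p q : ℕ) :
    (4 ≤ p → 3 ≤ q → 5 ≤ gainV p q) ∧ (3 ≤ p → 4 ≤ q → 5 ≤ gainV p q) ∧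
    (4 ≤ p → 2 ≤ q → 3 ≤ gainV p q) ∧ (2 ≤ p → 4 ≤ q → 3 ≤ gainV p q) ∧
    (3 ≤ p → 3 ≤ q → 2 ≤ gainV p q) ∧ (2 ≤ p → 2 ≤ q → 1 ≤ gainV p q) := by
  unfold gainV
  split_ifs <;> omega

theorem twonum_core {ax ay az bx bw ox oy oz u s g1 g2 E : ℕ} (hs : 1 ≤ s) (hs2 : s ≤ 2)
    (hx : ax + bx + ox = 5) (hy : ay + bw + oy = 5) (hz : az + oz = 5)
    (h1 : ox ≤ s) (h2 : oy ≤ s) (h3 : oz ≤ s) (ha : 1 ≤ ax ∨ 1 ≤ ay)
    (hbx : 1 ≤ bx) (hby : 1 ≤ bw)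
    (hu : ax ≤ u ∧ ay ≤ u ∧ u ≤ ax + ay)
    (f3 : gainV az (min u 3) ≤ g1) (gg : gainV bx bw ≤ g2)
    (hxy : 11 ≤ g2 + E + 3 * (u + s) ∨ (u = ax + ay ∧ ox + oy ≤ s))
    (hzx : 1 ≤ ax → 11 ≤ g1 + E + 3 * (bx + s) ∨ oz + ox ≤ s)
    (hzy : 1 ≤ ay → 11 ≤ g1 + E + 3 * (bw + s) ∨ oz + oy ≤ s) :
    8 ≤ g1 + g2 + E + 3 * s := by
  have hu1 : 1 ≤ u := by
    clear hxy hzx hzy
    omega
  have A := fun _ : Unit => twonum_gain az (min u 3)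
  have B := fun _ : Unit => twonum_gain bx bw
  have hxy' := fun _ : Unit => hxy
  have hzx' := fun _ : Unit => hzx
  have hzy' := fun _ : Unit => hzy
  clear hxy hzx hzy ha
  obtain ⟨hu2, hu3, hu4⟩ := hu
  generalize gainV az (min u 3) = G1 at *
  generalize gainV bx bw = G2 at *
  rcases Nat.lt_or_ge u 2 with k2 | k2
  · rcases hxy' () with h | h
    · omega
    · rcases Nat.lt_or_ge bx 4 with hb | hb
      · rcases Nat.lt_or_ge bx 3 with hc | hc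
        · have := (B ()).2.2.2.1 (by omega) (by omega)
          omega
        · have := (B ()).2.1 hc (by omega)
          omega
      · rcases Nat.lt_or_ge bw 3 with hc | hc
        · have := (B ()).2.2.1 hb (by omega)
          omega
        · have := (B ()).1 hb hc
          omega
  rcases Nat.lt_or_ge u 3 with k3 | k3
  · have hm : min u 3 = 2 := by omega
    rw [hm] at A
    rcases Nat.lt_or_ge az 4 with h4 | h4
    · have hs' : s = 2 := by omega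
      have e1 := (A ()).2.2.2.2.2 (by omega) le_rfl
      rcases Nat.lt_or_ge bx 2 with hb | hb
      · have := hzx' () (by omega)
        omega
      rcases Nat.lt_or_ge bw 2 with hb' | hb'
      · have := hzy' () (by omega)
        omega
      have := (B ()).2.2.2.2.2 hb hb'
      omega
    · have e1 := (A ()).2.2.1 h4 le_rfl
      rcases hxy' () with h | h
      · omega
      · rcases Nat.lt_or_ge s 2 with hs' | hs'
        · rcases Nat.lt_or_ge bx 4 with hb | hb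
          · have := (B ()).2.2.2.1 (by omega) (by omega)
            omega
          · have := (B ()).2.2.1 hb (by omega)
            omega
        · omega
  · have hm : min u 3 = 3 := by omega
    rw [hm] at A
    rcases Nat.lt_or_ge az 4 with h4 | h4
    · have := (A ()).2.2.2.2.1 (by omega) le_rfl
      omega
    · have := (A ()).1 h4 le_rfl
      omega

theorem twonum_zero {a b o : Fin 3 → ℕ} {u v : Fin 3 → Fin 3 → ℕ} {K : Fin 3 → Fin 3 → Prop}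
    {s g1 g2 E : ℕ} (hs : 1 ≤ s) (hs2 : s ≤ 2) (h5 : ∀ x, a x + b x + o x = 5)
    (ho : ∀ x, o x ≤ s)
    (u1 : ∀ x y, a x ≤ u x y ∧ a y ≤ u x y ∧ u x y ≤ a x + a y)
    (v1 : ∀ x y, b x ≤ v x y ∧ b y ≤ v x y ∧ v x y ≤ b x + b y)
    (hK : ∀ x y, x ≠ y → K x y ∨ (u x y = a x + a y ∧ v x y = b x + b y ∧ o x + o y ≤ s))
    (n1 : ∃ x y, x ≠ y ∧ 1 ≤ a x ∧ 1 ≤ a y) (n2 : ∃ x y, x ≠ y ∧ 1 ≤ b x ∧ 1 ≤ b y)
    (f3 : ∀ x y z, x ≠ y → x ≠ z → y ≠ z → 1 ≤ b y → 1 ≤ b z →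
      gainV (a x) (min (u y z) 3) ≤ g1)
    (g1' : ∀ x y z, x ≠ y → x ≠ z → y ≠ z → 1 ≤ a z → gainV (b x) (b y) ≤ g2)
    (r1 : ∀ x y z, x ≠ y → x ≠ z → y ≠ z → 1 ≤ b z → 1 ≤ a x → 1 ≤ a y → K x y →
      11 ≤ g1 + E + 3 * (v x y + s))
    (r2 : ∀ x y z, x ≠ y → x ≠ z → y ≠ z → 1 ≤ a z → 1 ≤ b x → 1 ≤ b y → K x y →
      11 ≤ g2 + E + 3 * (u x y + s))
    (z : Fin 3) (hz : b z = 0) :
    8 ≤ g1 + g2 + E + 3 * s := by
  obtain ⟨x, y, hxy, hbx, hby⟩ := n2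
  have hxz : x ≠ z := by
    rintro rfl
    omega
  have hyz : y ≠ z := by
    rintro rfl
    omega
  have hall : ∀ w : Fin 3, w = x ∨ w = y ∨ w = z := by
    intro w
    have e1 : x.val ≠ y.val := fun h => hxy (Fin.ext h)
    have e2 : x.val ≠ z.val := fun h => hxz (Fin.ext h)
    have e3 : y.val ≠ z.val := fun h => hyz (Fin.ext h)
    have := w.2
    have := x.2
    have := y.2
    have := z.2
    simp only [Fin.ext_iff]
    omega
  have ha : 1 ≤ a x ∨ 1 ≤ a y := by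
    obtain ⟨p, q, hpq, hp, hq⟩ := n1
    rcases hall p with rfl | rfl | rfl
    · exact Or.inl hp
    · exact Or.inr hp
    · rcases hall q with rfl | rfl | rfl
      · exact Or.inl hq
      · exact Or.inr hq
      · exact absurd rfl hpq
  have h5z := h5 z
  have hoz := ho z
  have haz : 1 ≤ a z := by omega
  refine twonum_core (az := a z) (oz := o z) (u := u x y) hs hs2 (h5 x) (h5 y) (by omega)
    (ho x) (ho y) hoz ha hbx hby (u1 x y) (f3 z x y hxz.symm hyz.symm hxy hbx hby)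
    (g1' x y z hxy hxz hyz haz) ?_ ?_ ?_
  · rcases hK x y hxy with h | h
    · exact Or.inl (r2 x y z hxy hxz hyz haz hbx hby h)
    · exact Or.inr ⟨h.1, h.2.2⟩
  · intro hax
    rcases hK z x hxz.symm with h | h
    · have h1 := r1 z x y hxz.symm hyz.symm hxy hby haz hax h
      have h2 := v1 z x
      left
      omega
    · exact Or.inr h.2.2
  · intro hay
    rcases hK z y hyz.symm with h | h
    · have h1 := r1 z y x hyz.symm hxz.symm hxy.symm hbx haz hay h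
      have h2 := v1 z y
      left
      omega
    · exact Or.inr h.2.2

theorem twoNum {a b o : Fin 3 → ℕ} {u v : Fin 3 → Fin 3 → ℕ} {K : Fin 3 → Fin 3 → Prop}
    {s g1 g2 E : ℕ} (hs : 1 ≤ s) (h5 : ∀ x, a x + b x + o x = 5) (ho : ∀ x, o x ≤ s)
    (u1 : ∀ x y, a x ≤ u x y ∧ a y ≤ u x y ∧ u x y ≤ a x + a y)
    (v1 : ∀ x y, b x ≤ v x y ∧ b y ≤ v x y ∧ v x y ≤ b x + b y)
    (hK : ∀ x y, x ≠ y → K x y ∨ (u x y = a x + a y ∧ v x y = b x + b y ∧ o x + o y ≤ s))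
    (n1 : ∃ x y, x ≠ y ∧ 1 ≤ a x ∧ 1 ≤ a y) (n2 : ∃ x y, x ≠ y ∧ 1 ≤ b x ∧ 1 ≤ b y)
    (f1 : ∀ x y z, x ≠ y → x ≠ z → y ≠ z → 1 ≤ b z → gainV (a x) (a y) ≤ g1)
    (f2 : ∀ x y z, x ≠ y → x ≠ z → y ≠ z → 1 ≤ b x → 1 ≤ b y → 1 ≤ b z →
      gainV (a x) (a y + a z) ≤ g1)
    (f3 : ∀ x y z, x ≠ y → x ≠ z → y ≠ z → 1 ≤ b y → 1 ≤ b z →
      gainV (a x) (min (u y z) 3) ≤ g1)
    (g1' : ∀ x y z, x ≠ y → x ≠ z → y ≠ z → 1 ≤ a z → gainV (b x) (b y) ≤ g2)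
    (g2' : ∀ x y z, x ≠ y → x ≠ z → y ≠ z → 1 ≤ a x → 1 ≤ a y → 1 ≤ a z →
      gainV (b x) (b y + b z) ≤ g2)
    (g3' : ∀ x y z, x ≠ y → x ≠ z → y ≠ z → 1 ≤ a y → 1 ≤ a z →
      gainV (b x) (min (v y z) 3) ≤ g2)
    (r1 : ∀ x y z, x ≠ y → x ≠ z → y ≠ z → 1 ≤ b z → 1 ≤ a x → 1 ≤ a y → K x y →
      11 ≤ g1 + E + 3 * (v x y + s))
    (r2 : ∀ x y z, x ≠ y → x ≠ z → y ≠ z → 1 ≤ a z → 1 ≤ b x → 1 ≤ b y → K x y →
      11 ≤ g2 + E + 3 * (u x y + s)) :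
    8 ≤ g1 + g2 + E + 3 * s := by
  by_cases hs2 : s ≤ 2
  swap
  · omega
  by_cases hb : ∃ z, b z = 0
  · obtain ⟨z, hz⟩ := hb
    exact twonum_zero hs hs2 h5 ho u1 v1 hK n1 n2 f3 g1' r1 r2 z hz
  by_cases ha : ∃ z, a z = 0
  · obtain ⟨z, hz⟩ := ha
    have h := twonum_zero (a := b) (b := a) (o := o) (u := v) (v := u) (K := K) (g1 := g2)
      (g2 := g1) (E := E) hs hs2 (fun x => by have := h5 x; omega) ho v1 u1
      (fun x y hxy => (hK x y hxy).imp id (fun h => ⟨h.2.1, h.1, h.2.2⟩)) n2 n1 g3' f1 r2 r1 z hz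
    omega
  have pa : ∀ x, 1 ≤ a x := fun x => Nat.one_le_iff_ne_zero.2 (fun h => ha ⟨x, h⟩)
  have pb : ∀ x, 1 ≤ b x := fun x => Nat.one_le_iff_ne_zero.2 (fun h => hb ⟨x, h⟩)
  have l : ∀ x, 5 ≤ a x + b x + s := fun x => by
    have := h5 x
    have := ho x
    omega
  have m : ∀ x, a x + b x ≤ 5 := fun x => by
    have := h5 x
    omega
  have h := twonum_pos hs hs2 (pa 0) (pa 1) (pa 2) (pb 0) (pb 1) (pb 2) (l 0) (l 1) (l 2)
    (m 0) (m 1) (m 2)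
    (f2 0 1 2 (by decide) (by decide) (by decide) (pb 0) (pb 1) (pb 2))
    (f2 1 0 2 (by decide) (by decide) (by decide) (pb 1) (pb 0) (pb 2))
    (f2 2 0 1 (by decide) (by decide) (by decide) (pb 2) (pb 0) (pb 1))
    (g2' 0 1 2 (by decide) (by decide) (by decide) (pa 0) (pa 1) (pa 2))
    (g2' 1 0 2 (by decide) (by decide) (by decide) (pa 1) (pa 0) (pa 2))
    (g2' 2 0 1 (by decide) (by decide) (by decide) (pa 2) (pa 0) (pa 1))
  omega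

end Pool.Agent.Work.MP_d266e7_co.C5.P24
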