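import Pool.Agent.Work.MP_d266e7_co.P24.GainV
import Pool.Agent.Work.MP_d266e7_co.P24.TwoNum

/-!
`Two.gain`: apply `twoNum` with `a x = dd W1 (q x)`, `b x = dd W2 (q x)`,
`o x = |q x \ (cov W1 ∪ cov W2)|`, `u x y = |(q x ∪ q y) ∩ cov W1|`, `K x y` = the hosts meet,
`s = |O|`, `g_i` the slack of `PB H W_i c_i 0` (truncated subtraction, `pb_zero`, `room_of_dd`),
`E = hi H Z - hi H W1 - hi H W2` (`hi_add`). `f1`, `f2`, `f3`: `pb_gain` with `sgad11`, `sgad12`,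
`sgad1N`; `r1`: `pb_real`, `hi_add` for `insert x (insert y W1)` and `W2`,
`(x ∪ y) \ cov W1 ⊆ ((x ∪ y) ∩ cov W2) ∪ O`.
-/

namespace Pool.Agent.Work.MP_d266e7_co.C5.P24

open Finset

variable {V : Type} [DecidableEq V]

theorem Two.symm {H W1 W2 : Finset (Finset V)} {q : Fin 3 → Finset V} {O : Finset V}
    (h : Two H W1 W2 q O) : Two H W2 W1 q O := by
  exact
    { u5 := h.u5, d3 := h.d3, c1 := h.c2, c2 := h.c1, s1 := h.s2, s2 := h.s1, sep := h.sep.symm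
      qmem := h.qmem, q1 := h.q2, q2 := h.q1
      out := fun x => by rw [union_comm]; exact h.out x
      nj1 := h.nj2, nj2 := h.nj1, n1 := h.n2, n2 := h.n1 }

theorem two_room {H W1 W2 : Finset (Finset V)} {q : Fin 3 → Finset V} {O : Finset V}
    (h : Two H W1 W2 q O) : ∃ v ∈ cov W1, dg W1 v < dg H v := by
  obtain ⟨x, -, -, hx, -⟩ := h.n1
  exact room_of_dd h.s1 (h.qmem x) (h.q1 x) hx

theorem two_cov_pair (x y : Finset V) : cov ({x, y} : Finset (Finset V)) = x ∪ y := by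
  rw [pair_cov_insert, cov_singleton]

theorem two_u (W : Finset (Finset V)) (x y : Finset V) :
    dd W x ≤ ((x ∪ y) ∩ cov W).card ∧ dd W y ≤ ((x ∪ y) ∩ cov W).card ∧
      ((x ∪ y) ∩ cov W).card ≤ dd W x + dd W y := by
  unfold dd
  refine ⟨card_le_card (inter_subset_inter_right subset_union_left),
    card_le_card (inter_subset_inter_right subset_union_right), ?_⟩
  rw [union_inter_distrib_right]
  exact card_union_le _ _

theorem two_u_eq (W : Finset (Finset V)) {x y : Finset V} (h : Disjoint x y) :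
    ((x ∪ y) ∩ cov W).card = dd W x + dd W y := by
  unfold dd
  rw [union_inter_distrib_right]
  exact card_union_of_disjoint (h.mono inter_subset_left inter_subset_left)

theorem two_five {W1 W2 : Finset (Finset V)} (h : Sep W1 W2) (x : Finset V) :
    dd W1 x + dd W2 x + (x \ (cov W1 ∪ cov W2)).card = x.card := by
  unfold dd
  have h1 : (x ∩ (cov W1 ∪ cov W2)).card = (x ∩ cov W1).card + (x ∩ cov W2).card := by
    rw [inter_union_distrib_left]
    exact card_union_of_disjoint (h.disjoint_cov.mono inter_subset_right inter_subset_right)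
  have h2 := card_inter_add_card_sdiff x (cov W1 ∪ cov W2)
  omega

theorem two_f [Infinite V] {H W1 W2 : Finset (Finset V)} {q : Fin 3 → Finset V}
    {O : Finset V} (h : Two H W1 W2 q O) {c1 g : ℕ} (i1 : IHV W1 c1)
    (hg : 27 * tau W1 + tt W1 (dg H) + g = 8 * W1.card + 3 * (cov W1).card + hi H W1 + c1)
    {p r : ℕ} (hp : SGad H W1 p r) : gainV p r ≤ g := by
  have := pb_gain i1 h.c1 h.s1 h.d3 (two_room h) hp
  unfold PB at this
  omega

theorem two_f1 [Infinite V] {H W1 W2 : Finset (Finset V)} {q : Fin 3 → Finset V}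
    {O : Finset V} (h : Two H W1 W2 q O) {c1 g : ℕ} (i1 : IHV W1 c1)
    (hg : 27 * tau W1 + tt W1 (dg H) + g = 8 * W1.card + 3 * (cov W1).card + hi H W1 + c1)
    (x y z : Fin 3) (hxy : x ≠ y) (hxz : x ≠ z) (hyz : y ≠ z) (hz : 1 ≤ dd W2 (q z)) :
    gainV (dd W1 (q x)) (dd W1 (q y)) ≤ g :=
  two_f h i1 hg (sgad11 h.s1 (h.qmem x) (h.qmem y) (h.q1 x) (h.q1 y) (h.nj1 x y z hxy hxz hyz hz))

theorem two_f2 [Infinite V] {H W1 W2 : Finset (Finset V)} {q : Fin 3 → Finset V}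
    {O : Finset V} (h : Two H W1 W2 q O) {c1 g : ℕ} (i1 : IHV W1 c1)
    (hg : 27 * tau W1 + tt W1 (dg H) + g = 8 * W1.card + 3 * (cov W1).card + hi H W1 + c1)
    (x y z : Fin 3) (hxy : x ≠ y) (hxz : x ≠ z) (hyz : y ≠ z) (hx : 1 ≤ dd W2 (q x))
    (hy : 1 ≤ dd W2 (q y)) (hz : 1 ≤ dd W2 (q z)) :
    gainV (dd W1 (q x)) (dd W1 (q y) + dd W1 (q z)) ≤ g :=
  two_f h i1 hg (sgad12 h.c1 h.s1 (h.qmem x) (h.qmem y) (h.qmem z) (h.q1 x) (h.q1 y) (h.q1 z)
    (h.nj1 x y z hxy hxz hyz hz) (h.nj1 x z y hxz hxy hyz.symm hy)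
    (h.nj1 y z x hyz hxy.symm hxz.symm hx))

theorem two_f3 [Infinite V] {H W1 W2 : Finset (Finset V)} {q : Fin 3 → Finset V}
    {O : Finset V} (h : Two H W1 W2 q O) {c1 g : ℕ} (i1 : IHV W1 c1)
    (hg : 27 * tau W1 + tt W1 (dg H) + g = 8 * W1.card + 3 * (cov W1).card + hi H W1 + c1)
    (x y z : Fin 3) (hxy : x ≠ y) (hxz : x ≠ z) (hyz : y ≠ z)
    (hy : 1 ≤ dd W2 (q y)) (hz : 1 ≤ dd W2 (q z)) :
    gainV (dd W1 (q x)) (min ((q y ∪ q z) ∩ cov W1).card 3) ≤ g := by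
  have := sgad1N (N := {q y, q z}) h.c1 h.s1 (h.qmem x) (h.q1 x) (by
    intro e he
    rcases mem_insert.1 he with rfl | he
    · exact ⟨h.qmem y, h.q1 y, h.nj1 x y z hxy hxz hyz hz⟩
    · rw [mem_singleton.1 he]
      exact ⟨h.qmem z, h.q1 z, h.nj1 x z y hxz hxy hyz.symm hy⟩)
  rw [two_cov_pair] at this
  exact two_f h i1 hg this

theorem two_r {H W1 W2 Z : Finset (Finset V)} {q : Fin 3 → Finset V}
    {O : Finset V} (h : Two H W1 W2 q O) {c1 g E : ℕ} (i1 : IHV W1 c1)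
    (hg : 27 * tau W1 + tt W1 (dg H) + g = 8 * W1.card + 3 * (cov W1).card + hi H W1 + c1)
    (hE : hi H W1 + hi H W2 + E = hi H Z) (z1 : W1 ⊆ Z) (z2 : W2 ⊆ Z) (z3 : ∀ x, q x ∈ Z)
    (x y z : Fin 3) (hxy : x ≠ y) (hxz : x ≠ z) (hyz : y ≠ z) (hz : 1 ≤ dd W2 (q z))
    (hx : 1 ≤ dd W1 (q x)) (hy : 1 ≤ dd W1 (q y)) (hK : (q x ∩ q y).Nonempty) :
    11 ≤ g + E + 3 * (((q x ∪ q y) ∩ cov W2).card + O.card) := by
  have h1 := pb_real i1 h.c1 h.s1 h.u5 h.d3 (h.qmem x) (h.qmem y) (h.nj1 x y z hxy hxz hyz hz)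
    hx hy hK
  have h2 : hi H (insert (q x) (insert (q y) W1)) + hi H W2 ≤ hi H Z := by
    refine hi_add ?_ ?_ z2
    · rw [disjoint_insert_left, disjoint_insert_left]
      exact ⟨h.q2 x, h.q2 y, h.sep.disjoint h.c1.u5.ne⟩
    · exact insert_subset (z3 x) (insert_subset (z3 y) z1)
  have h3 : ((q x ∪ q y) \ cov W1).card ≤ ((q x ∪ q y) ∩ cov W2).card + O.card := by
    refine le_trans (card_le_card ?_) (card_union_le _ _)
    intro v hv
    obtain ⟨hv1, hv2⟩ := mem_sdiff.1 hv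
    by_cases hv3 : v ∈ cov W2
    · exact mem_union_left _ (mem_inter.2 ⟨hv1, hv3⟩)
    · refine mem_union_right _ ?_
      have hn : v ∉ cov W1 ∪ cov W2 := fun hc => (mem_union.1 hc).elim hv2 hv3
      rcases mem_union.1 hv1 with hv1 | hv1
      · exact h.out x (mem_sdiff.2 ⟨hv1, hn⟩)
      · exact h.out y (mem_sdiff.2 ⟨hv1, hn⟩)
  omega

theorem Two.gain [Infinite V] {H W1 W2 Z : Finset (Finset V)} {q : Fin 3 → Finset V}
    {O : Finset V} (h : Two H W1 W2 q O) {c1 c2 : ℕ} (i1 : IHV W1 c1) (i2 : IHV W2 c2)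
    (hO : 1 ≤ O.card) (z1 : W1 ⊆ Z) (z2 : W2 ⊆ Z) (z3 : ∀ x, q x ∈ Z) :
    27 * (tau W1 + tau W2) + (tt W1 (dg H) + tt W2 (dg H)) + 8 ≤
      8 * (W1.card + W2.card) + 3 * ((cov W1).card + (cov W2).card) + 3 * O.card + hi H Z +
        (c1 + c2) := by
  have p1 := pb_zero i1 h.c1 h.s1 h.d3 (two_room h)
  have p2 := pb_zero i2 h.c2 h.s2 h.d3 (two_room h.symm)
  unfold PB at p1 p2
  have p3 : hi H W1 + hi H W2 ≤ hi H Z := hi_add (h.sep.disjoint h.c1.u5.ne) z1 z2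
  obtain ⟨g1, hg1⟩ : ∃ g, 27 * tau W1 + tt W1 (dg H) + g =
      8 * W1.card + 3 * (cov W1).card + hi H W1 + c1 := Nat.exists_eq_add_of_le p1 |>.imp
        fun g hg => by omega
  obtain ⟨g2, hg2⟩ : ∃ g, 27 * tau W2 + tt W2 (dg H) + g =
      8 * W2.card + 3 * (cov W2).card + hi H W2 + c2 := Nat.exists_eq_add_of_le p2 |>.imp
        fun g hg => by omega
  obtain ⟨E, hE⟩ : ∃ E, hi H W1 + hi H W2 + E = hi H Z := Nat.exists_eq_add_of_le p3 |>.imp
        fun g hg => by omega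
  have hE' : hi H W2 + hi H W1 + E = hi H Z := by omega
  have key := twoNum (a := fun x => dd W1 (q x)) (b := fun x => dd W2 (q x))
    (o := fun x => (q x \ (cov W1 ∪ cov W2)).card)
    (u := fun x y => ((q x ∪ q y) ∩ cov W1).card) (v := fun x y => ((q x ∪ q y) ∩ cov W2).card)
    (K := fun x y => (q x ∩ q y).Nonempty) (s := O.card) (g1 := g1) (g2 := g2) (E := E) hO
    (fun x => (two_five h.sep (q x)).trans (h.u5 _ (h.qmem x)))
    (fun x => card_le_card (h.out x))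
    (fun x y => two_u W1 (q x) (q y)) (fun x y => two_u W2 (q x) (q y))
    (fun x y _ => by
      rcases (q x ∩ q y).eq_empty_or_nonempty with he | he
      · right
        have hd : Disjoint (q x) (q y) := disjoint_iff_inter_eq_empty.2 he
        refine ⟨two_u_eq W1 hd, two_u_eq W2 hd, ?_⟩
        have := card_union_of_disjoint (hd.mono (sdiff_subset (t := cov W1 ∪ cov W2))
          (sdiff_subset (t := cov W1 ∪ cov W2)))
        have h2 := card_le_card (union_subset (h.out x) (h.out y))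
        show (q x \ (cov W1 ∪ cov W2)).card + (q y \ (cov W1 ∪ cov W2)).card ≤ O.card
        omega
      · exact Or.inl he)
    h.n1 h.n2 (two_f1 h i1 hg1) (two_f2 h i1 hg1) (two_f3 h i1 hg1)
    (two_f1 h.symm i2 hg2) (two_f2 h.symm i2 hg2) (two_f3 h.symm i2 hg2)
    (two_r h i1 hg1 hE z1 z2 z3) (two_r h.symm i2 hg2 hE' z2 z1 z3)
  omega

theorem two_n1 {H W1 W2 : Finset (Finset V)} {q : Fin 3 → Finset V} (h : Side2 H W1 W2 q) :
    ∃ x y, x ≠ y ∧ 1 ≤ dd W1 (q x) ∧ 1 ≤ dd W1 (q y) := by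
  rcases h.n1 with h | h | h
  · exact ⟨0, 1, by decide, h⟩
  · exact ⟨0, 2, by decide, h⟩
  · exact ⟨1, 2, by decide, h⟩

theorem two_of_side2 {H W1 W2 : Finset (Finset V)} {q : Fin 3 → Finset V} (h : Side2 H W1 W2 q)
    (h3 : ∀ v, dg H v ≤ 3) : Two H W1 W2 q (cov H \ (cov W1 ∪ cov W2)) := by
  exact
    { u5 := h.cc.u5, d3 := h3, c1 := h.c1, c2 := h.c2, s1 := h.s1, s2 := h.s2, sep := h.sep
      qmem := h.qmem, q1 := h.q1, q2 := h.q2
      out := fun x v hv => mem_sdiff.2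
        ⟨mem_cov.2 ⟨q x, h.qmem x, (mem_sdiff.1 hv).1⟩, (mem_sdiff.1 hv).2⟩
      nj1 := fun _ _ _ hxy hxz hyz hz => h.nj hxy hxz hyz hz
      nj2 := fun _ _ _ hxy hxz hyz hz => h.symm.nj hxy hxz hyz hz
      n1 := two_n1 h, n2 := two_n1 h.symm }

end Pool.Agent.Work.MP_d266e7_co.C5.P24
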